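import Pool.Agent.Q57.QT.Defs
import Pool.Agent.Q57.QM.Stm

set_option autoImplicit false

/-! # Tuples of ideals: statements of the steps -/

namespace Pool.Agent.Q57.QT

open MvPolynomial Pool.Agent.W428.MOT Pool.Agent.TH192.MT Pool.Agent.TH192.DT Pool.Agent.Q49.CO
open Pool.Agent.Y229 (SF IsLocalBI)
open Pool.Agent.Q57.MC (Chart Same mulF)

/-- the generators of the power `I ^ a` -/
noncomputable def pw {σ J : Type} (a : ℕ) (f : J → MvPolynomial σ ℂ) (j : Fin a → J) :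
    MvPolynomial σ ℂ := ∏ i, f (j i)

/-- the polynomial `∏_t (∑_j y_(t, j) f_(t, j)) ^ (a_t)` -/
noncomputable def prodY {σ : Type} {T r : ℕ} (a : Fin T → ℕ) (f : Fin T → Fin r → MvPolynomial σ ℂ) :
    MvPolynomial ((Fin T × Fin r) ⊕ σ) ℂ :=
  ∏ t, (∑ j, X (Sum.inl (t, j)) * rename Sum.inr (f t j)) ^ a t

/-- the series `∑ v ^ k T ^ (a k)` -/
noncomputable def gA {R : Type} [CommRing R] (v : R) (a : ℕ) : PowerSeries R :=
  PowerSeries.mk fun N => if a ∣ N then v ^ (N / a) else 0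

/-- the series `Z(T ^ a)` -/
noncomputable def dil {R : Type} [CommRing R] (a : ℕ) (Z : PowerSeries R) : PowerSeries R :=
  PowerSeries.mk fun N => if a ∣ N then PowerSeries.coeff (N / a) Z else 0

/-- Step R1: the roots for the powers of an ideal. Let `B` be a functional equation of the `pw a f`;
it is a relation between functions of exponents `s_κ`, `κ : Fin a → J`. Multiply it by
`(|s|)! / ∏ s_κ!` and sum over all `s` with the same `u = ∑ s_κ (e_(κ 0) + … )` (these are the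
coefficients at `y ^ u` of the relations which one obtains for the powers of
`∑ y_κ f_κ = (∑ y_j f_j) ^ a`). With `|u| = a m` a term
`∏_κ s_κ (s_κ - 1) … (s_κ - β_κ + 1) P f ^ (…)` becomes
`m (m - 1) … (m - |β| + 1) (a (m - |β|))! / (a m)! ∏_j u_j (u_j - 1) … P f ^ (…)`, whose denominator, as
a polynomial in `a m = |u|`, only has zeros at positive integers which are not divisible by `a`. After
multiplication with the denominators the relations are polynomial in `u`, so they hold for all `u`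
(compare `Pool.Agent.TH192.DT.locEq_of_powProd`). -/
def StPowSF : Prop := ∀ {σ J : Type} [Fintype σ] [DecidableEq σ] [Fintype J] [DecidableEq J]
  (f : J → MvPolynomial σ ℂ) (a : ℕ), 1 ≤ a → ∀ (p : σ → ℂ) (α : ℂ), (∀ k : ℕ, α ≠ k) →
    SF f p α → SF (pw a f) p (α / a)

/-- Step R2: the roots for products of powers of the `∑ y_(t, j) f_(t, j)` (use
`Pool.Agent.TH192.DT.locEq_of_powProd`, `Pool.Agent.Q57.MC.sf_iff`, `Pool.Agent.TH192.DT.powData_local`
and a translation of `p` to the origin). -/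
def StProdSF : Prop := ∀ {n T r : ℕ} (a : Fin T → ℕ), (∀ t, 1 ≤ a t) →
  ∀ f : Fin T → Fin r → MvPolynomial (Fin n) ℂ, (∀ t, ∃ j, f t j ≠ 0) → ∀ p : Fin n → ℂ,
    (∀ α : ℂ, SF (powF a f) p α → SF (fun _ : Fin 1 => prodY a f) (Sum.elim 0 p) α) ∧
    ∀ t, SF (fun _ : Fin 1 => prodY a f) (Sum.elim 0 p) (-1 / (a t : ℂ))

/-- Step Z1: one factor `(∑ y_j f_j) ^ a` (`y_j = X (e j)`; for given `x` with `ord f = k` the order of
`∑ y_j f_j` is `≥ k + m` with the probability `v ^ m`, or `v ^ (m - 1)` under the condition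
`y(0) = 0`, `m ≥ 1`). -/
def StBlock : Prop := ∀ {R : Type} [CommRing R] (M : Meas ℂ R) (v : R), M.L * v = 1 →
  ∀ {σ J K : Type} [Fintype σ] [Fintype J] [Fintype K] (e : J → σ), Function.Injective e →
  ∀ (f : J → MvPolynomial σ ℂ) (g : K → MvPolynomial σ ℂ), (∀ i j, e i ∉ (f j).vars) →
    (∀ i k, e i ∉ (g k).vars) → ∀ a : ℕ, 1 ≤ a →
    ZW M v (fun k => (∑ j, X (e j) * f j) ^ a * g k) Set.univ =
      PowerSeries.C (1 - v) * gA v a *
        ZW M v (fun q : (Fin a → J) × K => pw a f q.1 * g q.2) Set.univ ∧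
    ZW M v (fun k => (∑ j, X (e j) * f j) ^ a * g k) {0} =
      PowerSeries.C (1 - v) * (PowerSeries.X ^ a * gA v a) *
        ZW M v (fun q : (Fin a → J) × K => pw a f q.1 * g q.2) {0}

/-- Step Z2: the products of powers (use Z1 for one `t` after the other). -/
def StProdZ : Prop := ∀ {R : Type} [CommRing R] (M : Meas ℂ R) (v : R), M.L * v = 1 →
  ∀ {n T r : ℕ} (f : Fin T → Fin r → MvPolynomial (Fin n) ℂ) (a : Fin T → ℕ), (∀ t, 1 ≤ a t) →
    ZW M v (fun _ : Fin 1 => ∏ t, hypT f t ^ a t) Set.univ =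
      (∏ t, PowerSeries.C (1 - v) * gA v (a t)) * ZW M v (powF a f) Set.univ ∧
    ZW M v (fun _ : Fin 1 => ∏ t, hypT f t ^ a t) {0} =
      PowerSeries.C (v ^ (T * r)) *
        (∏ t, PowerSeries.C (1 - v) * (PowerSeries.X ^ a t * gA v (a t))) * ZW M v (powF a f) {0}

/-- Step Z3: the volumes for powers of ideals. -/
def StPowZ : Prop := ∀ {R : Type} [CommRing R] (M : Meas ℂ R) (v : R), M.L * v = 1 →
  ∀ {σ J : Type} [Fintype σ] [Fintype J] (f : J → MvPolynomial σ ℂ) {W : Set (Pt ℂ σ)}, Constr W →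
    ∀ a : ℕ, 1 ≤ a → ZW M v (pw a f) W = dil a (ZW M v f W)

/-- Step Z4: the denominators of `Z(T ^ a)`. -/
def StDil : Prop := ∀ {R : Type} [CommRing R] (u : Rˣ) (S : Finset (ℤ × ℤ)), (∀ q ∈ S, 0 < q.2) →
  ∀ (Z : PowerSeries R), Z ∈ ratU u (S : Set (ℤ × ℤ)) → ∀ a : ℕ, 1 ≤ a →
    dil a Z ∈ ratU u ((S.image fun q => (q.1, (a : ℤ) * q.2) : Finset (ℤ × ℤ)) : Set (ℤ × ℤ))

/-- Step F: algebraically independent products (let `h_u = ∏_t f_(t, e u t)`, of degree
`D = ∑ d_t`, and `G = ∏_t f_(t, e u₀ t) ^ (a_t - 1)`, of degree `δ`; then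
`det ∂_s (G h_u) = G ^ |S| (1 + δ / D) det ∂_s h_u` by Euler's formula
`D h_u = ∑_(s ∈ S) x_s ∂_s h_u`). -/
def StJac : Prop := ∀ {n T r : ℕ} (S : Finset (Fin n)) (d : Fin T → ℕ)
  (f : Fin T → Fin r → MvPolynomial (Fin n) ℂ), S.Nonempty → (∃ t, 0 < d t) →
  (∀ t j, (f t j).IsWeightedHomogeneous (fun i => if i ∈ S then 1 else 0) (d t)) →
  (∃ e : S → Fin T → Fin r,
    (Matrix.of fun s u : S => pderiv (s : Fin n) (∏ t, f t (e u t))).det ≠ 0) →
  ∀ a : Fin T → ℕ, (∀ t, 1 ≤ a t) → ∃ e : S → ((Σ t : Fin T, Fin (a t)) → Fin r),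
    (Matrix.of fun s u : S => pderiv (s : Fin n) (powF a f (e u))).det ≠ 0

/-- Step G: the ideal generated by the `powF a f`. -/
def StSpan : Prop := ∀ {σ A : Type} [CommRing A] (φ : MvPolynomial σ ℂ →+* A) {T r : ℕ}
  (a : Fin T → ℕ) (f : Fin T → Fin r → MvPolynomial σ ℂ),
  Ideal.span (Set.range fun j => φ (powF a f j)) =
    ∏ t, Ideal.span (Set.range fun j => φ (f t j)) ^ a t

/-- Step T: translations (conjugate the operators in `V f a` with the automorphism `x ↦ x + p`;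
compare `Pool.Agent.Y229.sf_equiv`, `TR_V`). -/
def StTrans : Prop := ∀ {n : ℕ} {J : Type} [Fintype J] [DecidableEq J]
  (f : J → MvPolynomial (Fin n) ℂ) (p : Fin n → ℂ) (α : ℂ),
  SF f p α ↔ SF (fun j => aeval (fun i => X i + C (p i)) (f j)) 0 α

end Pool.Agent.Q57.QT
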