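import Pool.Agent.W574.HS.Flat

set_option autoImplicit false

/-! # The Bernstein-Sato ideal of a tuple and its lines -/

namespace Pool.Agent.Q57.QT

open MvPolynomial Pool.Agent.H628R4.TP
open Pool.Agent.W574.HS (mulLeft_mem)

/-- `b` belongs to the Bernstein-Sato ideal of the tuple `F_1, …, F_T`:
`b(s) ∏ F_t ^ (s_t) = P(s) ∏ F_t ^ (s_t + 1)` for some `P(s) = ∑_m s ^ m P_m` with coefficients `P_m` in the
Weyl algebra. The equation is stated for all `s ∈ ℕ ^ T`; this is equivalent to the formal equation, as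
the coefficients are polynomials in `s`. -/
def InBF {σ : Type} {T : ℕ} (F : Fin T → MvPolynomial σ ℂ) (b : MvPolynomial (Fin T) ℂ) : Prop :=
  ∃ P : (Fin T →₀ ℕ) →₀ weylS σ, ∀ s : Fin T → ℕ,
    C (eval (fun t => (s t : ℂ)) b) * ∏ t, F t ^ s t =
      P.sum fun m Q => (∏ t, (s t : ℂ) ^ m t) •
        (Q : Module.End ℂ (MvPolynomial σ ℂ)) (∏ t, F t ^ (s t + 1))

section op

variable {σ : Type}

/-- functions of the form `s ↦ ∑ s ^ m P_m` -/
def POp (O : ℕ → Module.End ℂ (MvPolynomial σ ℂ)) : Prop :=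
  ∃ P : ℕ →₀ weylS σ, ∀ s : ℕ, O s =
    P.sum fun m Q => ((s : ℂ) ^ m) • (Q : Module.End ℂ (MvPolynomial σ ℂ))

theorem POp.single (m : ℕ) (Q : weylS σ) :
    POp fun s => ((s : ℂ) ^ m) • (Q : Module.End ℂ (MvPolynomial σ ℂ)) :=
  ⟨Finsupp.single m Q, fun s => by
    rw [Finsupp.sum_single_index]
    rw [ZeroMemClass.coe_zero, smul_zero]⟩

theorem POp.zero : POp fun _ => (0 : Module.End ℂ (MvPolynomial σ ℂ)) :=
  ⟨0, fun s => by rw [Finsupp.sum_zero_index]⟩

theorem POp.add {O O' : ℕ → Module.End ℂ (MvPolynomial σ ℂ)} (h : POp O) (h' : POp O') :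
    POp fun s => O s + O' s := by
  classical
  obtain ⟨P, hP⟩ := h
  obtain ⟨P', hP'⟩ := h'
  refine ⟨P + P', fun s => ?_⟩
  change O s + O' s = _
  rw [Finsupp.sum_add_index', hP, hP']
  · intro m
    rw [ZeroMemClass.coe_zero, smul_zero]
  · intro m Q Q'
    rw [AddMemClass.coe_add, smul_add]

theorem POp.sum {ι : Type} (S : Finset ι) (O : ι → ℕ → Module.End ℂ (MvPolynomial σ ℂ))
    (h : ∀ i ∈ S, POp (O i)) : POp fun s => ∑ i ∈ S, O i s := by
  classical
  induction S using Finset.induction_on with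
  | empty =>
    have h1 : (fun s => ∑ i ∈ (∅ : Finset ι), O i s) = fun _ => 0 := funext fun s => Finset.sum_empty
    rw [h1]
    exact POp.zero
  | insert a S ha ih =>
    have h1 : (fun s => ∑ i ∈ insert a S, O i s) = fun s => O a s + ∑ i ∈ S, O i s :=
      funext fun s => Finset.sum_insert ha
    rw [h1]
    exact POp.add (h a (Finset.mem_insert_self _ _))
      (ih fun i hi => h i (Finset.mem_insert_of_mem hi))

theorem POp.mul {O O' : ℕ → Module.End ℂ (MvPolynomial σ ℂ)} (h : POp O) (h' : POp O') :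
    POp fun s => O s * O' s := by
  classical
  obtain ⟨P, hP⟩ := h
  obtain ⟨P', hP'⟩ := h'
  have h1 : (fun s : ℕ => O s * O' s) = fun s : ℕ => ∑ m ∈ P.support, ∑ k ∈ P'.support,
      ((s : ℂ) ^ (m + k)) • (((P m * P' k : weylS σ)) : Module.End ℂ (MvPolynomial σ ℂ)) := by
    funext s
    rw [hP, hP', Finsupp.sum, Finsupp.sum, Finset.sum_mul]
    refine Finset.sum_congr rfl fun m _ => ?_
    rw [Finset.mul_sum]
    refine Finset.sum_congr rfl fun k _ => ?_
    rw [smul_mul_smul_comm, pow_add]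
    rfl
  rw [h1]
  exact POp.sum _ _ fun m _ => POp.sum _ _ fun k _ => POp.single _ _

theorem POp.const (Q : weylS σ) : POp fun _ => (Q : Module.End ℂ (MvPolynomial σ ℂ)) := by
  have h1 := POp.single 0 Q
  simpa only [pow_zero, one_smul] using h1

/-- polynomials in `s` -/
theorem POp.poly (c : Polynomial ℂ) (Q : weylS σ) :
    POp fun s => (c.eval (s : ℂ)) • (Q : Module.End ℂ (MvPolynomial σ ℂ)) := by
  have h1 : (fun s : ℕ => (c.eval (s : ℂ)) • (Q : Module.End ℂ (MvPolynomial σ ℂ))) =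
      fun s : ℕ => ∑ m ∈ Finset.range (c.natDegree + 1), ((s : ℂ) ^ m) •
        (((c.coeff m • Q : weylS σ)) : Module.End ℂ (MvPolynomial σ ℂ)) := by
    funext s
    rw [Polynomial.eval_eq_sum_range, Finset.sum_smul]
    refine Finset.sum_congr rfl fun m _ => ?_
    rw [mul_comm, mul_smul]
    rfl
  rw [h1]
  exact POp.sum _ _ fun m _ => POp.single _ _

end op

section line

variable {σ : Type} {T : ℕ} (F : Fin T → MvPolynomial σ ℂ) (a : Fin T → ℕ)

/-- the operator for `b(s a + i)` -/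
theorem op_step {b : MvPolynomial (Fin T) ℂ} (hb : InBF F b) (i : ℕ) :
    ∃ O : ℕ → Module.End ℂ (MvPolynomial σ ℂ), POp O ∧ ∀ s : ℕ,
      C (eval (fun t => ((s * a t + i : ℕ) : ℂ)) b) * ∏ t, F t ^ (s * a t + i) =
        O s (∏ t, F t ^ (s * a t + (i + 1))) := by
  classical
  obtain ⟨P, hP⟩ := hb
  set c : (Fin T →₀ ℕ) → Polynomial ℂ := fun m =>
    ∏ t, (Polynomial.C (a t : ℂ) * Polynomial.X + Polynomial.C (i : ℂ)) ^ m t with hc
  have hO : POp fun s : ℕ => ∑ m ∈ P.support, ((c m).eval (s : ℂ)) •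
      (P m : Module.End ℂ (MvPolynomial σ ℂ)) :=
    POp.sum P.support (fun m (s : ℕ) => ((c m).eval (s : ℂ)) •
      (P m : Module.End ℂ (MvPolynomial σ ℂ))) fun m _ => POp.poly (c m) (P m)
  refine ⟨_, hO, fun s => ?_⟩
  rw [hP fun t => s * a t + i, Finsupp.sum, LinearMap.sum_apply]
  refine Finset.sum_congr rfl fun m _ => ?_
  rw [LinearMap.smul_apply]
  have h1 : (c m).eval (s : ℂ) = ∏ t, ((s * a t + i : ℕ) : ℂ) ^ m t := by
    rw [hc, Polynomial.eval_prod]
    refine Finset.prod_congr rfl fun t _ => ?_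
    rw [Polynomial.eval_pow, Polynomial.eval_add, Polynomial.eval_mul, Polynomial.eval_C,
      Polynomial.eval_C, Polynomial.eval_X]
    push_cast
    rw [mul_comm (a t : ℂ)]
  rw [h1]
  rfl

theorem op_steps {b : MvPolynomial (Fin T) ℂ} (hb : InBF F b) (m : ℕ) :
    ∃ O : ℕ → Module.End ℂ (MvPolynomial σ ℂ), POp O ∧ ∀ s : ℕ,
      C (∏ i ∈ Finset.range m, eval (fun t => ((s * a t + i : ℕ) : ℂ)) b) *
        ∏ t, F t ^ (s * a t) = O s (∏ t, F t ^ (s * a t + m)) := by
  induction m with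
  | zero =>
    refine ⟨fun _ => 1, ?_, fun s => ?_⟩
    · have h1 := POp.const (1 : weylS σ)
      exact h1
    · rw [Finset.range_zero, Finset.prod_empty, map_one, one_mul]
      rfl
  | succ m ih =>
    obtain ⟨O, hO, h1⟩ := ih
    obtain ⟨O', hO', h2⟩ := op_step F a hb m
    refine ⟨fun s => O s * O' s, hO.mul hO', fun s => ?_⟩
    rw [Module.End.mul_apply, ← h2, Finset.prod_range_succ, mul_comm, C_mul, ← mul_assoc,
      mul_comm _ (C (∏ i ∈ Finset.range m, eval (fun t => ((s * a t + i : ℕ) : ℂ)) b)), mul_comm,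
      h1, ← smul_eq_C_mul, ← smul_eq_C_mul, map_smul]

/-- **The lines of the Bernstein-Sato ideal.** -/
theorem line_b [Finite σ] {b : MvPolynomial (Fin T) ℂ} (hb : InBF F b) (m : ℕ) (hm : ∀ t, a t ≤ m) :
    IsBFunction (∏ t, F t ^ a t) (∏ i ∈ Finset.range m,
      aeval (fun t => Polynomial.C (a t : ℂ) * Polynomial.X + Polynomial.C (i : ℂ)) b) := by
  classical
  obtain ⟨O, hO, h1⟩ := op_steps F a hb m
  have h2 : POp fun s => O s * LinearMap.mulLeft ℂ (∏ t, F t ^ (m - a t)) :=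
    hO.mul (POp.const ⟨_, mulLeft_mem (∏ t, F t ^ (m - a t))⟩)
  obtain ⟨P, hP⟩ := h2
  refine ⟨P, fun s => ?_⟩
  have h3 : ∀ s : ℕ, (∏ t, F t ^ a t) ^ s = ∏ t, F t ^ (s * a t) := fun s => by
    rw [← Finset.prod_pow]
    exact Finset.prod_congr rfl fun t _ => by rw [← pow_mul, mul_comm]
  have h4 : (∏ t, F t ^ (s * a t + m)) = (∏ t, F t ^ (m - a t)) * (∏ t, F t ^ a t) ^ (s + 1) := by
    rw [h3, ← Finset.prod_mul_distrib]
    refine Finset.prod_congr rfl fun t _ => ?_
    rw [← pow_add]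
    congr 1
    have := hm t
    rw [add_mul, one_mul]
    omega
  have h5 : (∏ i ∈ Finset.range m, aeval (fun t => Polynomial.C (a t : ℂ) * Polynomial.X +
      Polynomial.C (i : ℂ)) b).eval (s : ℂ) =
      ∏ i ∈ Finset.range m, eval (fun t => ((s * a t + i : ℕ) : ℂ)) b := by
    rw [Polynomial.eval_prod]
    refine Finset.prod_congr rfl fun i _ => ?_
    have h6 : ((Polynomial.evalRingHom (s : ℂ)).comp ((aeval fun t => Polynomial.C (a t : ℂ) *
        Polynomial.X + Polynomial.C (i : ℂ) : MvPolynomial (Fin T) ℂ →ₐ[ℂ] Polynomial ℂ) :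
          MvPolynomial (Fin T) ℂ →+* Polynomial ℂ)) =
        (eval fun t => ((s * a t + i : ℕ) : ℂ)) := by
      refine MvPolynomial.ringHom_ext (fun r => ?_) fun t => ?_
      · simp
      · simp
        ring
    exact congrArg (fun g : MvPolynomial (Fin T) ℂ →+* ℂ => g b) h6
  rw [h5, h3, h1, h4]
  have h7 := congrArg (fun L : Module.End ℂ (MvPolynomial σ ℂ) =>
    L ((∏ t, F t ^ a t) ^ (s + 1))) (hP s)
  simp only [Module.End.mul_apply, LinearMap.mulLeft_apply] at h7
  rw [h7, Finsupp.sum, Finsupp.sum, LinearMap.sum_apply]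
  rfl

end line

end Pool.Agent.Q57.QT
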