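import Pool.Agent.Q57.QT.Main

set_option autoImplicit false
set_option linter.unusedSectionVars false
set_option linter.unusedVariables false

/-! # The induction for tuples of ideals -/

namespace Pool.Agent.Q57.QT

open MvPolynomial Pool.Agent.W428.MOT Pool.Agent.TH192.MT Pool.Agent.TH192.DT Pool.Agent.Q49.CO
open Pool.Agent.Y229 Pool.Agent.Q57.MC Pool.Agent.Q57.MD Pool.Agent.Q57.QM

/-! ## Forms -/

/-- other names of the generators -/
theorem localBI_equiv {σ ι κ : Type} [Fintype ι] [Fintype κ] (e : κ ≃ ι)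
    (g : ι → MvPolynomial σ ℂ) (b : Polynomial ℂ) (h : IsLocalBI (fun k => g (e k)) b) :
    IsLocalBI g b := by
  classical
  obtain ⟨L, c, q, a, Q, hc, hQ⟩ := h
  refine ⟨L, fun l j => c l (e.symm j), fun l => rename e (q l), a, Q, fun l => ?_, fun s => ?_⟩
  · rw [← hc l]
    exact e.symm.sum_comp (c l)
  · have h1 := hQ fun k => s (e k)
    have e1 : ∑ k, s (e k) = ∑ j, s j := e.sum_comp s
    have e2 : ∏ k, g (e k) ^ s (e k) = ∏ j, g j ^ s j := e.prod_comp fun j => g j ^ s j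
    rw [e1, e2] at h1
    rw [h1]
    refine Finset.sum_congr rfl fun l _ => ?_
    have e3 : eval (fun j => (s j : ℂ)) (rename e (q l)) = eval (fun k => (s (e k) : ℂ)) (q l) := by
      rw [eval_rename]
      rfl
    have e4 : ∏ k, ((s (e k)).choose (-(c l k)).toNat : ℂ) =
        ∏ j, ((s j).choose (-(c l (e.symm j))).toNat : ℂ) := by
      rw [← e.prod_comp fun j => ((s j).choose (-(c l (e.symm j))).toNat : ℂ)]
      exact Finset.prod_congr rfl fun k _ => by rw [Equiv.symm_apply_apply]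
    have e5 : ∏ k, g (e k) ^ ((s (e k) : ℤ) + c l k).toNat =
        ∏ j, g j ^ ((s j : ℤ) + c l (e.symm j)).toNat := by
      rw [← e.prod_comp fun j => g j ^ ((s j : ℤ) + c l (e.symm j)).toNat]
      exact Finset.prod_congr rfl fun k _ => by rw [Equiv.symm_apply_apply]
    rw [e3, e4, e5]

theorem isForm_powF (H : StJac) {n T r : ℕ} {S : Finset (Fin n)} {d : Fin T → ℕ}
    {f : Fin T → Fin r → MvPolynomial (Fin n) ℂ} (hf : TForm S d f) (a : Fin T → ℕ)
    (ha : ∀ t, 1 ≤ a t) : IsForm S (∑ t, a t * d t) (reF (powF a f)) := by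
  classical
  obtain ⟨h0, ⟨t0, ht0⟩, h1, h2⟩ := hf
  refine ⟨h0, ?_, ?_, ?_⟩
  · refine Finset.sum_pos' (fun t _ => Nat.zero_le _) ⟨t0, Finset.mem_univ _, ?_⟩
    exact Nat.mul_pos (ha t0) ht0
  · rw [reF_all (powF a f) fun x => x.IsWeightedHomogeneous
      (fun i => if i ∈ S then 1 else 0) (∑ t, a t * d t)]
    intro j
    have h3 : ∑ q : (Σ t : Fin T, Fin (a t)), d q.1 = ∑ t, a t * d t := by
      rw [Fintype.sum_sigma]
      refine Finset.sum_congr rfl fun t _ => ?_
      change ∑ _y : Fin (a t), d t = a t * d t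
      rw [Finset.sum_const, Finset.card_univ, Fintype.card_fin, smul_eq_mul]
    rw [← h3]
    exact IsWeightedHomogeneous.prod _ _ _ fun q _ => h1 q.1 (j q)
  · rcases h2 with ⟨e, he⟩ | ⟨h2, h3⟩
    · obtain ⟨e', he'⟩ := H S d f h0 ⟨t0, ht0⟩ h1 ⟨e, he⟩ a ha
      refine Or.inl ⟨fun s => Fintype.equivFin _ (e' s), ?_⟩
      have h4 : (Matrix.of fun s t : S => pderiv (s : Fin n)
          (reF (powF a f) (Fintype.equivFin _ (e' t)))) =
          Matrix.of fun s u : S => pderiv (s : Fin n) (powF a f (e' u)) := by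
        ext s t
        rw [Matrix.of_apply, Matrix.of_apply]
        unfold reF
        rw [Equiv.symm_apply_apply]
      rw [h4]
      exact he'
    · refine Or.inr (Or.inr ⟨(reF_ex _).2 (powF_ne a f h2), fun b hb => ?_⟩)
      have h4 := h3 a ha b (localBI_equiv (Fintype.equivFin _).symm (powF a f) b hb)
      push_cast
      exact h4

theorem dehC_powF {n T r : ℕ} (i : Fin (n + 1)) (a : Fin T → ℕ)
    (f : Fin T → Fin r → MvPolynomial (Fin (n + 1)) ℂ) :
    (fun j => dehC i (reF (powF a f) j)) = reF (powF a fun t j => dehC i (f t j)) := by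
  funext j
  unfold reF powF dehC
  rw [map_prod]

/-! ## The induction -/

/-- the statement of the induction -/
def TMot (M : Meas ℂ (MK ℂ)) (k : Kd) {n T r : ℕ} (f : Fin T → Fin r → MvPolynomial (Fin n) ℂ) :
    Prop :=
  (∀ t, ∃ j, f t j ≠ 0) ∧ ∀ a : Fin T → ℕ, (∀ t, 1 ≤ a t) → MotJ M k (powF a f)

theorem tmot_of {M : Meas ℂ (MK ℂ)} {k : Kd} {n T r : ℕ}
    (f : Fin T → Fin r → MvPolynomial (Fin n) ℂ)
    (h : ∀ a : Fin T → ℕ, (∀ t, 1 ≤ a t) → MotJ M k (powF a f)) : TMot M k f :=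
  ⟨ne_of_powF (fun _ => 1) (fun _ => le_refl 1) f (motJ_ne k _ (h _ fun _ => le_refl 1)), h⟩

section main

variable {M : Meas ℂ (MK ℂ)} (hL : M.L = ((Lu ℂ : (MK ℂ)ˣ) : MK ℂ))
include hL

theorem mot_mul (H : Steps) (k : Kd) {n r n' r' : ℕ} (f : Fin r → MvPolynomial (Fin n) ℂ)
    (g : Fin r' → MvPolynomial (Fin n') ℂ) (hf : Mot M k false n r f)
    (hg : Mot M k false n' r' g) : Mot M k false _ _ (mulF f g) := by
  cases k with
  | germ => exact pm_mul hL f g hf hg
  | cov => exact ⟨mulF_ne' f g hf.1 hg.1, H.cvmul _ (fun f g hf hg => pm_mul hL f g hf hg) f g hf.2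
      hg.2⟩
  | glob => exact gm_mul hL f g hf hg

/-- **The induction.** -/
theorem tq_main (H : TSteps) (hχ : ∀ (ι : Type) [Fintype ι] (S : Set (Pt ℂ ι)),
      M.χ ι S = algebraMap (K0 ℂ) (MK ℂ) (cls ι S)) {k : Kd} {n T r : ℕ}
    {f : Fin T → Fin r → MvPolynomial (Fin n) ℂ} (h : TQ k n T r f) : TMot M k f := by
  classical
  induction h with
  | plane f hf =>
    refine ⟨hf, fun a ha => ⟨(reF_ex _).2 (powF_ne a f hf), ?_⟩⟩
    exact cv_mono' (fun n r f h => pm_weak hL f h) (H.q.cvplane _ (gg_gam hL H.q).plane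
      (gg_gam hL H.q).pow _ ((reF_ex _).2 (powF_ne a f hf)))
  | @forms n T r f d hf h ih =>
    refine tmot_of f fun a ha => ?_
    have h0 := isForm_powF H.jac hf a ha
    have h1 : Cv (Gam M false) (reF (powF a f)) fun p => p ≠ 0 := by
      refine H.q.cvforms _ _ (∑ t, a t * d t) (fun j => ?_) fun i => ?_
      · have h2 := h0.2.2.1 j
        have h3 : (fun i => if i ∈ (Finset.univ : Finset (Fin (n + 1))) then 1 else 0) =
            (1 : Fin (n + 1) → ℕ) := by
          funext i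
          rw [if_pos (Finset.mem_univ _)]
          rfl
        rw [h3] at h2
        exact h2
      · rw [dehC_powF]
        exact ((ih i).2 a ha).2
    have h2 : PM M false (reF (powF a f)) := pm_cone_cv hL _ _ h0 h1
    exact ⟨h2.1, cv_origin hL _ h2 h1⟩
  | charts f hf S h0 hS hT hp ih =>
    refine ⟨hf, fun a ha => ⟨(reF_ex _).2 (powF_ne a f hf), ?_⟩⟩
    exact cv_tuple H.span a f (fun _ => True) S h0 hS (fun A hA => (ih A hA).2 a ha)
      fun p _ hz => hp p hz
  | germ f hf ih =>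
    exact ⟨ih.1, fun a ha => pm_of_cv hL _ (ih.2 a ha).1 (ih.2 a ha).2⟩
  | glob f hf ih =>
    refine ⟨ih.1, fun a ha => ?_⟩
    obtain ⟨h0, S, hS, hp⟩ := ih.2 a ha
    exact gm_charts hL _ S (fun A hA => (hS A hA).1) (fun p hz => hp p trivial hz)
      fun A hA => (hS A hA).2
  | cone f S d hf B h0 hB hT hp ih =>
    refine tmot_of f fun a ha => ?_
    obtain ⟨Q, hQ, hQp⟩ := cv_tuple (Γ := Gam M false) H.span a f
      (fun p => p ≠ 0 ∧ ∀ i ∉ S, p i = 0) B h0 hB (fun A hA => (ih A hA).2 a ha)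
      fun p hP hz => hp p hP.1 hP.2 hz
    exact pm_cone hL _ S _ (isForm_powF H.jac hf a ha) Q (fun A hA => (hQ A hA).1)
      (fun p hp0 hpS hz => hQp p ⟨hp0, hpS⟩ hz) fun A hA => (hQ A hA).2
  | gcone f S d hf B h0 hB hT hp ih =>
    refine tmot_of f fun a ha => ?_
    obtain ⟨Q, hQ, hQp⟩ := cv_tuple (Γ := Gam M false) H.span a f
      (fun p => ∃ i ∈ S, p i ≠ 0) B h0 hB (fun A hA => (ih A hA).2 a ha)
      fun p hP hz => hp p hP hz
    exact gm_cone hL _ S _ (isForm_powF H.jac hf a ha) Q (fun A hA => (hQ A hA).1)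
      (fun p hpS hz => hQp p hpS hz) fun A hA => (hQ A hA).2
  | @mul k n T r n' r' f g hf hg ihf ihg =>
    refine tmot_of _ fun a ha => ?_
    exact motJ_of H.trans k (mulF (reF (powF a f)) (reF (powF a g))) _ (span_mul H.span a f g)
      (mot_mul hL H.q k _ _ (ihf.2 a ha) (ihg.2 a ha))
  | @join k n T n' T' r f g hf hg ihf ihg =>
    refine tmot_of _ fun a ha => ?_
    exact motJ_of H.trans k _ _ (span_join H.span a f g)
      (mot_mul hL H.q k _ _ (ihf.2 _ fun t => ha _) (ihg.2 _ fun t => ha _))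
  | @mono k n T r T' r' f m hm h hs hf ih =>
    refine tmot_of _ fun b hb => ?_
    refine motJ_span H.trans k _ _ (span_mono H.span b f m h hs) (ih.2 _ fun t => ?_)
    obtain ⟨s, hs0⟩ := hm t
    calc 1 ≤ m s t * b s := Nat.mul_pos hs0 (hb s)
      _ ≤ ∑ s, m s t * b s := Finset.single_le_sum (f := fun s => m s t * b s)
          (fun s _ => Nat.zero_le _) (Finset.mem_univ s)
  | @hyp k hk n T r f hf ih =>
    refine tmot_of _ fun a ha => ?_
    have hi := ih.2 a ha
    have h1 : ∀ J : Fin (Fintype.card ((Σ t : Fin T, Fin (a t)) → Fin r)) → MvPolynomial (Fin n) ℂ,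
      J = reF (powF a f) → Ideal.span (Set.range (powF a f)) = Ideal.span (Set.range J) := by
      rintro J rfl
      rw [reF_range']
    cases k with
    | germ =>
      refine motJ_of H.trans .germ (fun _ : Fin 1 => ∏ t, hypT f t ^ a t) _ (span_hypT H.span a f) ?_
      exact pm_hypT hL H a ha f ih.1 (pm_span H.trans _ _ (h1 _ rfl) hi)
    | cov => exact absurd rfl hk
    | glob =>
      refine motJ_of H.trans .glob (fun _ : Fin 1 => ∏ t, hypT f t ^ a t) _ (span_hypT H.span a f) ?_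
      exact gm_hypT hL H a ha f ih.1 (gm_span H.trans _ _ (h1 _ rfl) hi)
  | @formal n T r c l f h g s hg hd hs hh ih =>
    refine tmot_of _ fun a ha => ?_
    refine pm_formal hL _ (reF (powF a h)) g s hg hd ?_ (ih.2 a ha)
    have e1 := H.span (MvPolynomial.coeToMvPowerSeries.ringHom (R := ℂ) (σ := Fin n)) a f
    have e2 := H.span ((aeval g : MvPolynomial (Fin c) ℂ →ₐ[ℂ] MvPowerSeries (Fin n) ℂ) :
      MvPolynomial (Fin c) ℂ →+* MvPowerSeries (Fin n) ℂ) a h
    rw [reF_range (fun x => (x : MvPowerSeries (Fin n) ℂ)) (powF a f),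
      reF_range (fun x => aeval g x) (powF a h)]
    refine e1.trans (Eq.trans ?_ e2.symm)
    exact Finset.prod_congr rfl fun t _ => congrArg (fun I => I ^ a t) (hs t)
  | @quad k n r f hf =>
    refine tmot_of _ fun a ha => ?_
    exact motJ_span H.trans k _ _ (span_single H.span a f)
      (mot_pw hL H k f (a 0) (ha 0) (qc_main hL H.q hf))
  | @tower n r f hf =>
    refine tmot_of _ fun a ha => ?_
    exact motJ_span H.trans .germ _ _ (span_single H.span a f)
      (mot_pw hL H .germ f (a 0) (ha 0) (pm_tower hL hχ hf))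
  | @tglob n r f hf =>
    refine tmot_of _ fun a ha => ?_
    exact motJ_span H.trans .glob _ _ (span_single H.span a f)
      (mot_pw hL H .glob f (a 0) (ha 0) (gm_glob hL hχ hf))

end main

/-- the products of powers of polynomials -/
theorem span_one (H : StSpan) {n T : ℕ} (a : Fin T → ℕ) (F : Fin T → MvPolynomial (Fin n) ℂ) :
    Ideal.span (Set.range fun _ : Fin 1 => ∏ t, F t ^ a t) =
      Ideal.span (Set.range (powF a fun t (_ : Fin 1) => F t)) := by
  rw [span_powF H, Set.range_const, ← Ideal.prod_span_singleton]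
  refine Finset.prod_congr rfl fun t _ => ?_
  rw [Set.range_const, Ideal.span_singleton_pow]

/-- **The global theorem for tuples of polynomials.** -/
theorem tq_glob (H : TSteps) {n T : ℕ} {F : Fin T → MvPolynomial (Fin n) ℂ}
    (h : TQ .glob n T 1 fun t _ => F t) (a : Fin T → ℕ) (ha : ∀ t, 1 ≤ a t) :
    (∃ j : Fin 1, (fun _ : Fin 1 => ∏ t, F t ^ a t) j ≠ 0) ∧
      ∃ S : Finset (ℤ × ℤ), GlobMC (fun _ : Fin 1 => ∏ t, F t ^ a t) S := by
  classical
  obtain ⟨M, hL, hχ⟩ := exists_meas ℂ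
  have h1 : GM M false (reF (powF a fun t (_ : Fin 1) => F t)) := (tq_main hL H hχ h).2 a ha
  have hs : Ideal.span (Set.range fun _ : Fin 1 => ∏ t, F t ^ a t) =
      Ideal.span (Set.range (reF (powF a fun t (_ : Fin 1) => F t))) := by
    rw [reF_range', span_one H.span]
  obtain ⟨hne, S, hS, hz⟩ := gm_span H.trans _ _ hs h1
  refine ⟨hne, S, hS, ?_⟩
  rw [SW_false] at hz
  exact (zetaId_iff hL hχ _ _).2 hz

/-- **The local theorem for tuples of polynomials.** -/
theorem tq_germ (H : TSteps) {n T : ℕ} {F : Fin T → MvPolynomial (Fin n) ℂ}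
    (h : TQ .germ n T 1 fun t _ => F t) (a : Fin T → ℕ) (ha : ∀ t, 1 ≤ a t) :
    (∃ j : Fin 1, (fun _ : Fin 1 => ∏ t, F t ^ a t) j ≠ 0) ∧
      ∃ S : Finset (ℤ × ℤ), StrongMC (fun _ : Fin 1 => ∏ t, F t ^ a t) S := by
  classical
  obtain ⟨M, hL, hχ⟩ := exists_meas ℂ
  have h1 : PM M false (reF (powF a fun t (_ : Fin 1) => F t)) := (tq_main hL H hχ h).2 a ha
  have hs : Ideal.span (Set.range fun _ : Fin 1 => ∏ t, F t ^ a t) =
      Ideal.span (Set.range (reF (powF a fun t (_ : Fin 1) => F t))) := by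
    rw [reF_range', span_one H.span]
  obtain ⟨hne, S, hS, hz⟩ := pm_span H.trans _ _ hs h1
  refine ⟨hne, S, fun q hq => ⟨(hS q hq).1, (hS q hq).2.1, (sf_iff _ hne _).1 (hS q hq).2.2⟩, ?_⟩
  rw [SW_false] at hz
  exact (zeta_iff hL hχ _ _).2 hz

end Pool.Agent.Q57.QT
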