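import Pool.Agent.Q57.QT.Unc
import Pool.Agent.Q57.QT.Ind
import Pool.Agent.Q57.QM.Rows
import Pool.Agent.Q299.QT.Z3
import Pool.Agent.Q150.QT.Z2
import Pool.Agent.TH192.MU.FDefs

set_option autoImplicit false
set_option linter.unusedSectionVars false
set_option linter.unusedVariables false

/-! # The topological zeta function in several variables -/

namespace Pool.Agent.Q57.QT

open MvPolynomial Pool.Agent.W428.MOT Pool.Agent.TH192.MT Pool.Agent.TH192.DT Pool.Agent.Q49.CO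
open Pool.Agent.TH192.MU (zetaId IsTopZeta SpecAt IsMultiTop)
open Pool.Agent.Y229 Pool.Agent.Q57.MC Pool.Agent.Q57.MD Pool.Agent.Q57.QM
open Pool.Agent.H628R4.TP (IsBFunction)

section ser

theorem coe_expand {R : Type} [CommRing R] (s : ℕ) (hs : s ≠ 0) (P : Polynomial R) :
    ((Polynomial.expand R s P : Polynomial R) : PowerSeries R) =
      PowerSeries.expand s hs (P : PowerSeries R) := by
  ext N
  rw [Polynomial.coeff_coe]
  by_cases h : s ∣ N
  · obtain ⟨m, rfl⟩ := h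
    rw [PowerSeries.coeff_expand_mul, Polynomial.coeff_coe,
      Polynomial.coeff_expand_mul' (Nat.pos_of_ne_zero hs)]
  · rw [PowerSeries.coeff_expand_of_not_dvd _ _ _ h, Polynomial.coeff_expand (Nat.pos_of_ne_zero hs),
      if_neg h]

theorem specAt_expand {R : Type} [CommRing R] [IsDomain R] {u : Rˣ} {ε : R →+* ℂ}
    {Z : PowerSeries R} (D P₀ : Polynomial R)
    (hDZ : (D : PowerSeries R) * Z = (P₀ : PowerSeries R)) (s : ℕ) (hs : s ≠ 0)
    (hD : D.eval (((u⁻¹) ^ s : Rˣ) : R) ≠ 0) {c : ℂ}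
    (h : SpecAt u ε (PowerSeries.expand s hs Z) 1 c) : SpecAt u ε Z s c := by
  obtain ⟨P, Q, x, y, h1, h2, h3, h4, h5⟩ := h
  refine ⟨P₀, D, x, y, hDZ, hD, ?_, h4, h5⟩
  rw [pow_one] at h2 h3
  have h6 : (Q * Polynomial.expand R s P₀ : Polynomial R) = P * Polynomial.expand R s D := by
    apply Polynomial.coe_injective R
    rw [Polynomial.coe_mul, Polynomial.coe_mul, coe_expand s hs, coe_expand s hs, ← h1, ← hDZ,
      map_mul]
    ring
  have h7 := congrArg (Polynomial.eval ((u⁻¹ : Rˣ) : R)) h6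
  rw [Polynomial.eval_mul, Polynomial.eval_mul, Polynomial.expand_eval, Polynomial.expand_eval]
    at h7
  rw [Units.val_pow_eq_pow_val]
  apply mul_left_cancel₀ h2
  linear_combination y * h7 + D.eval (((u⁻¹ : Rˣ) : R) ^ s) * h3

theorem zetaId_pow {σ : Type} [Fintype σ] (F : MvPolynomial σ ℂ) (s : ℕ) (hs : s ≠ 0) :
    zetaId (fun _ : Fin 1 => F ^ s) = PowerSeries.expand s hs (zetaId fun _ : Fin 1 => F) := by
  classical
  obtain ⟨M, hL, hχ⟩ := exists_meas ℂ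
  have hv : M.L * (((Lu ℂ)⁻¹ : (MK ℂ)ˣ) : MK ℂ) = 1 := by rw [hL, Units.mul_inv]
  have h1 := Pool.Agent.Q299.QT.qt_powz M _ hv (fun _ : Fin 1 => F)
    (W := Set.univ) Constr.univ s (Nat.pos_of_ne_zero hs)
  have h2 : Set.range (pw s fun _ : Fin 1 => F) = Set.range fun _ : Fin 1 => F ^ s := by
    ext G
    simp only [Set.mem_range, pw, Finset.prod_const, Finset.card_univ, Fintype.card_fin]
    constructor
    · rintro ⟨_, h⟩
      exact ⟨0, h⟩
    · rintro ⟨_, h⟩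
      exact ⟨fun _ => 0, h⟩
  rw [Pool.Agent.Q150.QT.ZW_range M _ _ _ h2] at h1
  rw [zetaId_eq hL hχ, zetaId_eq hL hχ, h1, Pool.Agent.Q299.QT.dil_eq s hs, map_mul,
    PowerSeries.expand_C]

end ser

section rel

variable {T : ℕ} (ν : ℕ) (N : Fin T → ℕ)

/-- a polynomial which vanishes on a hyperplane is divisible by its equation -/
theorem dvd_of_vanish (t₀ : Fin T) (hN : 0 < N t₀) (G : MvPolynomial (Fin T) ℂ)
    (hG : ∀ z : Fin T → ℂ, (ν : ℂ) + ∑ t, (N t : ℂ) * z t = 0 → eval z G = 0) :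
    (C (ν : ℂ) + ∑ t, C (N t : ℂ) * X t) ∣ G := by
  classical
  set l : MvPolynomial (Fin T) ℂ := C (ν : ℂ) + ∑ t, C (N t : ℂ) * X t with hl
  have h1 : restr ν N t₀ G = 0 := by
    refine MvPolynomial.funext fun z => ?_
    rw [eval_restr, map_zero]
    exact hG _ (rho_mem ν N t₀ hN z)
  have hN0 : (N t₀ : ℂ) ≠ 0 := by exact_mod_cast hN.ne'
  have h2 : ∀ t, Ideal.Quotient.mk (Ideal.span {l}) (rhoP ν N t₀ t) =
      Ideal.Quotient.mk (Ideal.span {l}) (X t) := by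
    intro t
    by_cases h : t = t₀
    · rw [Ideal.Quotient.eq, Ideal.mem_span_singleton, h]
      refine ⟨C (-1 / (N t₀ : ℂ)), ?_⟩
      unfold rhoP
      rw [if_pos rfl, hl, ← Finset.add_sum_erase Finset.univ (fun t => C (N t : ℂ) * X t)
        (Finset.mem_univ t₀)]
      have h3 : (C (-1 / (N t₀ : ℂ)) * C (N t₀ : ℂ) : MvPolynomial (Fin T) ℂ) = -1 := by
        rw [← C_mul]
        have : -1 / (N t₀ : ℂ) * N t₀ = -1 := by field_simp
        rw [this, C_neg, C_1]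
      linear_combination (-(X t₀ : MvPolynomial (Fin T) ℂ)) * h3
    · unfold rhoP
      rw [if_neg h]
  have h3 : (Ideal.Quotient.mk (Ideal.span {l})).comp ((aeval (rhoP ν N t₀) :
      MvPolynomial (Fin T) ℂ →ₐ[ℂ] MvPolynomial (Fin T) ℂ) :
        MvPolynomial (Fin T) ℂ →+* MvPolynomial (Fin T) ℂ) =
      Ideal.Quotient.mk (Ideal.span {l}) := by
    refine MvPolynomial.ringHom_ext (fun r => ?_) fun t => ?_
    · simp
    · rw [RingHom.comp_apply, RingHom.coe_coe, aeval_X, h2]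
  have h4 := congrArg (fun φ : MvPolynomial (Fin T) ℂ →+* _ => φ G) h3
  simp only [RingHom.comp_apply, RingHom.coe_coe] at h4
  have h5 : (aeval (rhoP ν N t₀)) G = 0 := h1
  rw [h5, map_zero] at h4
  exact Ideal.mem_span_singleton.1 (Ideal.Quotient.eq_zero_iff_mem.1 h4.symm)

theorem exists_ne_of_rel (hN : ∃ t, 0 < N t) (g h : MvPolynomial (Fin T) ℂ)
    (hrel : IsRelPrime g h)
    (hh : ∀ z : Fin T → ℂ, (ν : ℂ) + ∑ t, (N t : ℂ) * z t = 0 → eval z h = 0) :
    ∃ z : Fin T → ℂ, (ν : ℂ) + ∑ t, (N t : ℂ) * z t = 0 ∧ eval z g ≠ 0 := by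
  classical
  obtain ⟨t₀, ht₀⟩ := hN
  by_contra hcon
  push Not at hcon
  have h1 := hrel (dvd_of_vanish ν N t₀ ht₀ g hcon) (dvd_of_vanish ν N t₀ ht₀ h hh)
  have h2 := h1.map (eval (rho ν N t₀ fun _ => (0 : ℂ)))
  rw [map_add, map_sum, eval_C] at h2
  simp only [map_mul, eval_C, eval_X] at h2
  rw [rho_mem ν N t₀ ht₀] at h2
  exact not_isUnit_zero h2

end rel

section multi

variable {R : Type} [CommRing R] [IsDomain R] (E : MK ℂ →+* R) (ε : R →+* ℂ)
  (hε : ε (E ((Lu ℂ : (MK ℂ)ˣ) : MK ℂ)) = 1) (hE : E ((Lu ℂ : (MK ℂ)ˣ) : MK ℂ) ≠ 1)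

include hε hE

/-- the values of the zeta function of a power -/
theorem specAt_of_pow {σ : Type} [Fintype σ] (F : MvPolynomial σ ℂ) (S : Finset (ℤ × ℤ))
    (hS : GlobMC (fun _ : Fin 1 => F) S) (s : ℕ) (hs : 0 < s) (c : ℂ)
    (h : SpecAt (Units.map (E : MK ℂ →* R) (Lu ℂ)) ε
      (PowerSeries.map E (zetaM (F ^ s) Set.univ {c | c ≠ 0})) 1 c) :
    SpecAt (Units.map (E : MK ℂ →* R) (Lu ℂ)) ε
      (PowerSeries.map E (zetaM F Set.univ {c | c ≠ 0})) s c := by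
  classical
  have hs0 : s ≠ 0 := hs.ne'
  rw [← zetaId_one, zetaId_pow F s hs0, PowerSeries.map_expand] at h
  rw [← zetaId_one]
  obtain ⟨h1, h2⟩ := hS
  set U : Rˣ := Units.map (E : MK ℂ →* R) (Lu ℂ) with hU
  set w : R := ((U⁻¹ : Rˣ) : R) with hwd
  have hUE : (U : R) = E ((Lu ℂ : (MK ℂ)ˣ) : MK ℂ) := rfl
  have hw : E ((Lu ℂ : (MK ℂ)ˣ) : MK ℂ) * w = 1 := by
    rw [← hUE, hwd, Units.mul_inv]
  have hεw : ε w = 1 := by
    have h1 := congrArg ε hw
    rw [map_mul, hε, one_mul, map_one] at h1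
    exact h1
  have hw1 : w ≠ 1 := by
    intro h0
    rw [h0, mul_one] at hw
    exact hE hw
  obtain ⟨Q, P, ⟨M, B, hB1, hB2, hB3⟩, hQP⟩ := exists_den (E := E) (ε := ε) hw hεw
    (D := (S : Set (ℤ × ℤ))) (fun q hq => ⟨(h1 q hq).1, (h1 q hq).2.1⟩) _ h2
  have hQPE : ((Q.map E : Polynomial R) : PowerSeries R) *
      PowerSeries.map E (zetaId fun _ : Fin 1 => F) = ((P.map E : Polynomial R) : PowerSeries R) := by
    have h1 := congrArg (PowerSeries.map E) hQP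
    rw [map_mul, ← Polynomial.polynomial_map_coe, ← Polynomial.polynomial_map_coe] at h1
    exact h1
  refine specAt_expand (Q.map E) (P.map E) hQPE s hs0 ?_ h
  obtain ⟨k, rfl⟩ : ∃ k, s = k + 1 := ⟨s - 1, by omega⟩
  obtain ⟨q, hq1, hq2⟩ := hB3 k
  rw [Units.val_pow_eq_pow_val, ← hwd, hq1]
  refine mul_ne_zero (pow_ne_zero _ (sub_ne_zero.2 hw1.symm)) fun h0 => ?_
  rw [h0, map_zero] at hq2
  obtain ⟨p, hp, hp'⟩ := hB1 _ hq2.symm
  have h3 := h1 p hp
  have h4 : ((k + 1 : ℕ) : ℂ) * (p.2 : ℂ) = (p.1 : ℂ) := by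
    have h5 : (p.2 : ℂ) ≠ 0 := by exact_mod_cast h3.2.1.ne'
    rw [hp']
    field_simp
  have h6 : ((k + 1 : ℕ) : ℤ) * p.2 = p.1 := by exact_mod_cast h4
  have h7 : 0 < ((k + 1 : ℕ) : ℤ) * p.2 := mul_pos (by positivity) h3.2.1
  have h8 := h3.1
  omega

/-- **The lines of the topological zeta function in several variables.** -/
theorem line_pole {n T : ℕ} (F : Fin T → MvPolynomial (Fin n) ℂ) (a : Fin T → ℕ)
    (ha : ∀ t, 1 ≤ a t)
    (hF : (∃ j : Fin 1, (fun _ : Fin 1 => ∏ t, F t ^ a t) j ≠ 0) ∧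
      ∃ S : Finset (ℤ × ℤ), GlobMC (fun _ : Fin 1 => ∏ t, F t ^ a t) S)
    (g h : MvPolynomial (Fin T) ℂ)
    (hZ : IsMultiTop E ε (fun a => zetaM (∏ t, F t ^ a t) Set.univ {c | c ≠ 0}) g h) (s₀ : ℂ)
    (hg : eval (fun t => s₀ * a t) g ≠ 0) (hh : eval (fun t => s₀ * a t) h = 0)
    (b : Polynomial ℂ) (hb : IsBFunction (∏ t, F t ^ a t) b) : b.eval s₀ = 0 := by
  classical
  -- restriction to the line
  set L : MvPolynomial (Fin T) ℂ → Polynomial ℂ := fun G =>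
    aeval (fun t => Polynomial.C (a t : ℂ) * Polynomial.X) G with hL
  have hLe : ∀ (G : MvPolynomial (Fin T) ℂ) (z : ℂ), (L G).eval z =
      eval (fun t => z * a t) G := by
    intro G z
    have h1 : ((Polynomial.evalRingHom z).comp ((aeval fun t => Polynomial.C (a t : ℂ) *
        Polynomial.X : MvPolynomial (Fin T) ℂ →ₐ[ℂ] Polynomial ℂ) :
          MvPolynomial (Fin T) ℂ →+* Polynomial ℂ)) = (eval fun t => z * a t) := by
      refine MvPolynomial.ringHom_ext (fun r => ?_) fun t => ?_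
      · simp
      · simp
        ring
    exact congrArg (fun φ : MvPolynomial (Fin T) ℂ →+* ℂ => φ G) h1
  have hval : ∀ s : ℕ, 0 < s → ∃ c, SpecAt (Units.map (E : MK ℂ →* R) (Lu ℂ)) ε
      (PowerSeries.map E (zetaM (∏ t, F t ^ a t) Set.univ {c | c ≠ 0})) s c ∧
      (L h).eval (s : ℂ) ≠ 0 ∧ (L g).eval (s : ℂ) = c * (L h).eval (s : ℂ) := by
    intro s hs
    obtain ⟨c, h1, h2, h3⟩ := hZ (fun t => s * a t) fun t => Nat.mul_pos hs (ha t)
    refine ⟨c, ?_, ?_, ?_⟩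
    · obtain ⟨-, S, hS⟩ := hF
      refine specAt_of_pow E ε hε hE _ S hS s hs c ?_
      have h4 : (∏ t, F t ^ a t) ^ s = ∏ t, F t ^ (s * a t) := by
        rw [← Finset.prod_pow]
        exact Finset.prod_congr rfl fun t _ => by rw [← pow_mul, mul_comm]
      rw [h4]
      exact h1
    · rw [hLe]
      push_cast at h2
      exact h2
    · rw [hLe, hLe]
      push_cast at h3
      exact h3
  have hLh : L h ≠ 0 := by
    obtain ⟨c, _, h2, _⟩ := hval 1 Nat.one_pos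
    intro h0
    rw [h0, Polynomial.eval_zero] at h2
    exact h2 rfl
  set Z : RatFunc ℂ := algebraMap (Polynomial ℂ) (RatFunc ℂ) (L g) /
    algebraMap (Polynomial ℂ) (RatFunc ℂ) (L h) with hZd
  have hcross : Z.num * L h = L g * Z.denom := by
    have h1 : algebraMap (Polynomial ℂ) (RatFunc ℂ) Z.num /
        algebraMap (Polynomial ℂ) (RatFunc ℂ) Z.denom =
        algebraMap (Polynomial ℂ) (RatFunc ℂ) (L g) /
        algebraMap (Polynomial ℂ) (RatFunc ℂ) (L h) := by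
      rw [RatFunc.num_div_denom]
    rw [div_eq_div_iff (RatFunc.algebraMap_ne_zero Z.denom_ne_zero)
      (RatFunc.algebraMap_ne_zero hLh), ← map_mul, ← map_mul] at h1
    exact RatFunc.algebraMap_injective ℂ h1
  have htop : IsTopZeta E ε (zetaId fun _ : Fin 1 => ∏ t, F t ^ a t) Z := by
    intro s hs
    obtain ⟨c, h1, h2, h3⟩ := hval s hs
    refine ⟨c, by rw [zetaId_one]; exact h1, ?_⟩
    have h4 := congrArg (Polynomial.eval (s : ℂ)) hcross
    rw [Polynomial.eval_mul, Polynomial.eval_mul, h3] at h4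
    apply mul_right_cancel₀ h2
    linear_combination h4
  have hpole : Z.denom.eval s₀ = 0 := by
    have h4 := congrArg (Polynomial.eval s₀) hcross
    rw [Polynomial.eval_mul, Polynomial.eval_mul, hLe, hLe, hh, mul_zero] at h4
    exact (mul_eq_zero.1 h4.symm).resolve_left hg
  exact global_top E ε hε hE hF Z htop s₀ hpole b (locEq1_of_eq _ b hb)

/-- **The polar hyperplanes of the topological zeta function in several variables.** -/
theorem multi_shift {n T : ℕ} (F : Fin T → MvPolynomial (Fin n) ℂ)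
    (hF : ∀ a : Fin T → ℕ, (∀ t, 1 ≤ a t) →
      (∃ j : Fin 1, (fun _ : Fin 1 => ∏ t, F t ^ a t) j ≠ 0) ∧
      ∃ S : Finset (ℤ × ℤ), GlobMC (fun _ : Fin 1 => ∏ t, F t ^ a t) S)
    (g h : MvPolynomial (Fin T) ℂ) (hrel : IsRelPrime g h)
    (hZ : IsMultiTop E ε (fun a => zetaM (∏ t, F t ^ a t) Set.univ {c | c ≠ 0}) g h)
    (ν : ℕ) (hν : 0 < ν) (N : Fin T → ℕ) (hN : ∃ t, 0 < N t)
    (hH : ∀ z : Fin T → ℂ, (ν : ℂ) + ∑ t, (N t : ℂ) * z t = 0 → eval z h = 0) :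
    ∃ i : ℕ, ∀ b, InBF F b → ∀ z : Fin T → ℂ, (ν : ℂ) + ∑ t, (N t : ℂ) * z t = 0 →
      eval (fun t => z t + i) b = 0 := by
  refine exists_shift F ν hν N hN g (exists_ne_of_rel ν N hN g h hrel hH)
    fun a s₀ ha hs hg b hb => ?_
  exact line_pole E ε hε hE F a ha (hF a ha) g h hZ s₀ hg (hH _ hs) b hb

end multi

end Pool.Agent.Q57.QT
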