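import Pool.Agent.Q57.QT.Lin
import Pool.Agent.Q57.QM.All
import Pool.Agent.Q92.QT.PowSF
import Pool.Agent.Q92.QT.ProdSF
import Pool.Agent.Q149.QT.Trans
import Pool.Agent.Q150.QT.Z2
import Pool.Agent.Q299.QT.F
import Pool.Agent.Q299.QT.Z1
import Pool.Agent.Q299.QT.Z3

set_option autoImplicit false

/-! # All steps for the tuples -/

namespace Pool.Agent.Q57.QT

/-- The steps are proved. -/
theorem tsteps : TSteps where
  powsf := Pool.Agent.Q92.QT.qt_powsf
  prodsf := Pool.Agent.Q92.QT.qt_prodsf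
  prodz := Pool.Agent.Q150.QT.qt_prodz Pool.Agent.Q299.QT.qt_block
  powz := Pool.Agent.Q299.QT.qt_powz
  dil := Pool.Agent.Q299.QT.qt_dil
  jac := Pool.Agent.Q299.QT.qt_jac
  span := Pool.Agent.Q299.QT.qt_span
  trans := Pool.Agent.Q149.QT.qt_trans
  q := Pool.Agent.Q57.QM.steps

end Pool.Agent.Q57.QT
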