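import Pool.Agent.Q57.QT.Stm
import Pool.Agent.Q57.QM.Main

set_option autoImplicit false
set_option linter.unusedSectionVars false
set_option linter.unusedVariables false

/-! # Other generators of the same ideal -/

namespace Pool.Agent.Q57.QT

open MvPolynomial Pool.Agent.W428.MOT Pool.Agent.TH192.MT Pool.Agent.TH192.DT Pool.Agent.Q49.CO
open Pool.Agent.Y229 Pool.Agent.Q57.MC Pool.Agent.Q57.MD Pool.Agent.Q57.QM

/-- the family with the index set `Fin` -/
noncomputable def reF {σ J : Type} [Fintype J] (f : J → MvPolynomial σ ℂ)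
    (k : Fin (Fintype.card J)) : MvPolynomial σ ℂ := f ((Fintype.equivFin J).symm k)

section re

variable {σ J : Type} [Fintype J]

theorem reF_range {A : Type} (g : MvPolynomial σ ℂ → A) (f : J → MvPolynomial σ ℂ) :
    (Set.range fun k => g (reF f k)) = Set.range fun j => g (f j) := by
  unfold reF
  exact (Fintype.equivFin J).symm.surjective.range_comp fun j => g (f j)

theorem reF_range' (f : J → MvPolynomial σ ℂ) : Set.range (reF f) = Set.range f :=
  reF_range (fun x => x) f

theorem reF_ex (f : J → MvPolynomial σ ℂ) : (∃ k, reF f k ≠ 0) ↔ ∃ j, f j ≠ 0 := by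
  constructor
  · rintro ⟨k, hk⟩
    exact ⟨_, hk⟩
  · rintro ⟨j, hj⟩
    refine ⟨Fintype.equivFin J j, ?_⟩
    unfold reF
    rwa [Equiv.symm_apply_apply]

theorem reF_all (f : J → MvPolynomial σ ℂ) (P : MvPolynomial σ ℂ → Prop) :
    (∀ k, P (reF f k)) ↔ ∀ j, P (f j) := by
  constructor
  · intro h j
    have h1 := h (Fintype.equivFin J j)
    unfold reF at h1
    rwa [Equiv.symm_apply_apply] at h1
  · exact fun h k => h _

theorem sf_reF [DecidableEq J] (f : J → MvPolynomial σ ℂ) (p : σ → ℂ) (α : ℂ) (h : SF f p α) :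
    SF (reF f) p α := by
  refine sf_equiv (Equiv.refl σ) (Fintype.equivFin J) f (reF f) (fun j => ?_) p α h
  unfold reF
  rw [Equiv.symm_apply_apply]
  exact (rename_id_apply (f j)).symm

end re

section sf

variable {n : ℕ}

/-- **Roots only depend on the ideal.** -/
theorem sf_span (hT : StTrans) {J K : Type} [Fintype J] [Fintype K] [DecidableEq J] [DecidableEq K]
    (f : J → MvPolynomial (Fin n) ℂ) (g : K → MvPolynomial (Fin n) ℂ) (hf : ∃ j, f j ≠ 0)
    (hs : Ideal.span (Set.range g) = Ideal.span (Set.range f)) (p : Fin n → ℂ) (α : ℂ)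
    (h : SF f p α) : SF g p α := by
  classical
  set φ : MvPolynomial (Fin n) ℂ →ₐ[ℂ] MvPolynomial (Fin n) ℂ := aeval fun i => X i + C (p i) with hφ
  set ψ : MvPolynomial (Fin n) ℂ →ₐ[ℂ] MvPolynomial (Fin n) ℂ := aeval fun i => X i - C (p i) with hψ
  have hψφ : ∀ q, ψ (φ q) = q := by
    intro q
    have h1 : ψ.comp φ = AlgHom.id ℂ _ := by
      apply MvPolynomial.algHom_ext
      intro i
      rw [AlgHom.comp_apply, hφ, aeval_X, map_add, hψ, aeval_X, algHom_C]
      simp
    exact congrArg (fun θ : MvPolynomial (Fin n) ℂ →ₐ[ℂ] MvPolynomial (Fin n) ℂ => θ q) h1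
  have hφψ : ∀ q, φ (ψ q) = q := by
    intro q
    have h1 : φ.comp ψ = AlgHom.id ℂ _ := by
      apply MvPolynomial.algHom_ext
      intro i
      rw [AlgHom.comp_apply, hψ, aeval_X, map_sub, hφ, aeval_X, algHom_C]
      simp
    exact congrArg (fun θ : MvPolynomial (Fin n) ℂ →ₐ[ℂ] MvPolynomial (Fin n) ℂ => θ q) h1
  set h0 : Fin (Fintype.card J) → MvPolynomial (Fin n) ℂ := fun k => φ (reF f k) with hh0
  have hsf : SF h0 0 α := (hT (reF f) p α).1 (sf_reF f p α h)
  have hne : ∃ k, h0 k ≠ 0 := by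
    obtain ⟨k, hk⟩ := (reF_ex f).2 hf
    refine ⟨k, fun h1 => hk ?_⟩
    have h2 := congrArg ψ h1
    rwa [hh0, hψφ, map_zero] at h2
  have hfit : Same g h0 (fun i => X i - C (p i)) 1 := by
    have h1 := same_one h0 (fun i => X i - C (p i) : Fin n → MvPolynomial (Fin n) ℂ)
    have h2 : (fun k => aeval (fun i => X i - C (p i)) (h0 k)) = reF f := by
      funext k
      exact hψφ _
    rw [h2] at h1
    unfold Same at h1 ⊢
    rw [← h1]
    have h3 : (Set.range fun j => algebraMap (MvPolynomial (Fin n) ℂ)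
        (Localization.Away (1 : MvPolynomial (Fin n) ℂ)) (g j)) =
        (algebraMap (MvPolynomial (Fin n) ℂ)
          (Localization.Away (1 : MvPolynomial (Fin n) ℂ))) '' Set.range g := by
      rw [← Set.range_comp]
      rfl
    have h4 : (Set.range fun j => algebraMap (MvPolynomial (Fin n) ℂ)
        (Localization.Away (1 : MvPolynomial (Fin n) ℂ)) (reF f j)) =
        (algebraMap (MvPolynomial (Fin n) ℂ)
          (Localization.Away (1 : MvPolynomial (Fin n) ℂ))) '' Set.range f := by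
      rw [← reF_range' f, ← Set.range_comp]
      rfl
    rw [h3, h4, ← Ideal.map_span, ← Ideal.map_span, hs]
  refine sf_chart g (Chart.mk n (Fintype.card J) (fun i => X i - C (p i)) 1 id h0) hfit hne p ?_ α
    fun b hb => hsf.localBI b hb
  refine ⟨by rw [map_one]; exact one_ne_zero, fun t => ?_, ?_⟩
  · change eval p (X t - C (p t)) = 0
    rw [map_sub, eval_X, eval_C, sub_self]
  · have h1 : (Matrix.of fun u t : Fin n => eval p (pderiv (id u) (X t - C (p t) :
        MvPolynomial (Fin n) ℂ))) = 1 := by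
      ext u t
      rw [Matrix.of_apply, id, Matrix.one_apply, map_sub, pderiv_C, sub_zero]
      split_ifs with h
      · rw [h, pderiv_X_self, map_one]
      · rw [pderiv_X_of_ne (Ne.symm h), map_zero]
    change (Matrix.of fun u t : Fin n => eval p (pderiv (id u) (X t - C (p t) :
        MvPolynomial (Fin n) ℂ))).det ≠ 0
    rw [h1, Matrix.det_one]
    exact one_ne_zero

end sf

section zw

variable {R : Type} [CommRing R] (M : Meas ℂ R) (v : R)

theorem vol_span {σ J K : Type} [Fintype σ] (f : J → MvPolynomial σ ℂ) (g : K → MvPolynomial σ ℂ)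
    (hs : Ideal.span (Set.range g) = Ideal.span (Set.range f)) (W : Set (Pt ℂ σ)) (N : ℕ) :
    vol M v g W N = vol M v f W N := by
  have h1 : GW g W N N = GW f W N N := by
    ext z
    rw [mem_GW, mem_GW]
    refine and_congr Iff.rfl ?_
    have h2 := congrArg (Ideal.map ((aeval (ar z) : MvPolynomial σ ℂ →ₐ[ℂ]
      PowerSeries (AlgebraicClosure ℂ)) : MvPolynomial σ ℂ →+* PowerSeries (AlgebraicClosure ℂ))) hs
    rw [Ideal.map_span, Ideal.map_span, ← Set.range_comp, ← Set.range_comp] at h2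
    exact ⟨fun h k => vn_of_span h2 N h k, fun h k => vn_of_span h2.symm N h k⟩
  unfold vol
  rw [h1]

theorem ZW_span {σ J K : Type} [Fintype σ] (f : J → MvPolynomial σ ℂ) (g : K → MvPolynomial σ ℂ)
    (hs : Ideal.span (Set.range g) = Ideal.span (Set.range f)) (W : Set (Pt ℂ σ)) :
    ZW M v g W = ZW M v f W := by
  ext N
  simp only [ZW, PowerSeries.coeff_mk]
  rw [vol_span M v f g hs, vol_span M v f g hs]

end zw

theorem ne_span {σ J K : Type} (f : J → MvPolynomial σ ℂ) (g : K → MvPolynomial σ ℂ)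
    (hs : Ideal.span (Set.range g) = Ideal.span (Set.range f)) (hf : ∃ j, f j ≠ 0) :
    ∃ k, g k ≠ 0 := by
  by_contra h
  push Not at h
  have h1 : Ideal.span (Set.range g) = ⊥ := by
    rw [Ideal.span_eq_bot]
    rintro _ ⟨k, rfl⟩
    exact h k
  rw [h1] at hs
  obtain ⟨j, hj⟩ := hf
  have h2 : f j ∈ (⊥ : Ideal (MvPolynomial σ ℂ)) := by
    rw [hs]
    exact Ideal.subset_span ⟨j, rfl⟩
  exact hj (Ideal.mem_bot.1 h2)

section pm

variable {M : Meas ℂ (MK ℂ)}

theorem pm_span (hT : StTrans) {n : ℕ} {J K : Type} [Fintype J] [Fintype K]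
    (f : J → MvPolynomial (Fin n) ℂ) (g : K → MvPolynomial (Fin n) ℂ)
    (hs : Ideal.span (Set.range g) = Ideal.span (Set.range f)) (h : PM M false f) :
    PM M false g := by
  classical
  obtain ⟨hf, S, hS, hz⟩ := h
  refine ⟨ne_span f g hs hf, S, fun q hq => ?_, ?_⟩
  · obtain ⟨h1, h2, h3⟩ := hS q hq
    exact ⟨h1, h2, sf_span hT f g hf hs 0 _ h3⟩
  · rw [SW_false] at hz ⊢
    rw [ZW_span M _ f g hs]
    exact hz

theorem gm_span (hT : StTrans) {n : ℕ} {J K : Type} [Fintype J] [Fintype K]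
    (f : J → MvPolynomial (Fin n) ℂ) (g : K → MvPolynomial (Fin n) ℂ)
    (hs : Ideal.span (Set.range g) = Ideal.span (Set.range f)) (h : GM M false f) :
    GM M false g := by
  classical
  obtain ⟨hf, S, hS, hz⟩ := h
  refine ⟨ne_span f g hs hf, S, fun q hq => ?_, ?_⟩
  · obtain ⟨h1, h2, p, h3⟩ := hS q hq
    exact ⟨h1, h2, p, sf_span hT f g hf hs p _ h3⟩
  · rw [SW_false] at hz ⊢
    rw [ZW_span M _ f g hs]
    exact hz

theorem cv_span {Γ : ∀ n r : ℕ, (Fin r → MvPolynomial (Fin n) ℂ) → Prop} {n r l : ℕ}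
    (f : Fin r → MvPolynomial (Fin n) ℂ) (g : Fin l → MvPolynomial (Fin n) ℂ)
    (hs : Ideal.span (Set.range g) = Ideal.span (Set.range f)) {P : (Fin n → ℂ) → Prop}
    (h : Cv Γ f P) : Cv Γ g P := by
  obtain ⟨S, hS, hp⟩ := h
  have hmap : ∀ {A : Type} [CommRing A] (φ : MvPolynomial (Fin n) ℂ →+* A),
      Ideal.span (Set.range fun k => φ (g k)) = Ideal.span (Set.range fun j => φ (f j)) := by
    intro A _ φ
    have h1 := congrArg (Ideal.map φ) hs
    rwa [Ideal.map_span, Ideal.map_span, ← Set.range_comp, ← Set.range_comp] at h1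
  refine ⟨S, fun A hA => ⟨?_, (hS A hA).2⟩, fun p hP hz => hp p hP fun j => ?_⟩
  · have h1 := (hS A hA).1
    unfold Chart.Fits Same at h1 ⊢
    rw [← h1]
    exact hmap _
  · have h1 := hmap (eval p)
    have h2 : eval p (f j) ∈ Ideal.span (Set.range fun k => eval p (g k)) := by
      rw [h1]
      exact Ideal.subset_span ⟨j, rfl⟩
    have h3 : Ideal.span (Set.range fun k => eval p (g k)) = ⊥ := by
      rw [Ideal.span_eq_bot]
      rintro _ ⟨k, rfl⟩
      exact hz k
    rw [h3] at h2
    exact Ideal.mem_bot.1 h2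

/-- the statement of the induction for a family with an arbitrary finite index set -/
def MotJ (M : Meas ℂ (MK ℂ)) (k : Kd) {n : ℕ} {J : Type} [Fintype J]
    (f : J → MvPolynomial (Fin n) ℂ) : Prop := Mot M k false n _ (reF f)

theorem motJ_span (hT : StTrans) (k : Kd) {n : ℕ} {J K : Type} [Fintype J] [Fintype K]
    (f : J → MvPolynomial (Fin n) ℂ) (g : K → MvPolynomial (Fin n) ℂ)
    (hs : Ideal.span (Set.range g) = Ideal.span (Set.range f)) (h : MotJ M k f) :
    MotJ M k g := by
  have hs' : Ideal.span (Set.range (reF g)) = Ideal.span (Set.range (reF f)) := by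
    rw [reF_range', reF_range', hs]
  cases k with
  | germ => exact pm_span hT _ _ hs' h
  | cov => exact ⟨ne_span _ _ hs' h.1, cv_span _ _ hs' h.2⟩
  | glob => exact gm_span hT _ _ hs' h

/-- the same for families with the index set `Fin r` -/
theorem motJ_of (hT : StTrans) (k : Kd) {n r : ℕ} {K : Type} [Fintype K]
    (f : Fin r → MvPolynomial (Fin n) ℂ) (g : K → MvPolynomial (Fin n) ℂ)
    (hs : Ideal.span (Set.range g) = Ideal.span (Set.range f)) (h : Mot M k false n r f) :
    MotJ M k g := by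
  have hs' : Ideal.span (Set.range (reF g)) = Ideal.span (Set.range f) := by
    rw [reF_range', hs]
  cases k with
  | germ => exact pm_span hT _ _ hs' h
  | cov => exact ⟨ne_span _ _ hs' h.1, cv_span _ _ hs' h.2⟩
  | glob => exact gm_span hT _ _ hs' h

theorem motJ_ne (k : Kd) {n : ℕ} {J : Type} [Fintype J] (f : J → MvPolynomial (Fin n) ℂ)
    (h : MotJ M k f) : ∃ j, f j ≠ 0 := by
  rw [← reF_ex]
  cases k with
  | germ => exact h.1
  | cov => exact h.1
  | glob => exact h.1

end pm

end Pool.Agent.Q57.QT
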