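import Pool.Agent.Q57.QM.Defs

set_option autoImplicit false

/-! # The classes of tuples of ideals -/

namespace Pool.Agent.Q57.QT

open MvPolynomial
open Pool.Agent.Q57.MC (Same mulF)
open Pool.Agent.Q57.MD (Tower Glob)
open Pool.Agent.Q57.QM (Kd QC dehC)
open Pool.Agent.Y229 (IsLocalBI)

/-- The generators `∏_t ∏_(i < a_t) f_(t, j_(t, i))` of the ideal `∏_t I_t ^ (a_t)`, where `I_t` is the
ideal generated by `f_(t, 1), …, f_(t, r)`. -/
noncomputable def powF {σ : Type} {T r : ℕ} (a : Fin T → ℕ) (f : Fin T → Fin r → MvPolynomial σ ℂ)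
    (j : (Σ t : Fin T, Fin (a t)) → Fin r) : MvPolynomial σ ℂ :=
  ∏ q, f q.1 (j q)

/-- The ideals `I_t` are generated by forms `f_(t, j)` of degree `d_t` in the variables `x_i`, `i ∈ S`
(with polynomials in the other variables as coefficients), `d_t > 0` for at least one `t`, and
* `|S|` of the products `∏_t f_(t, j_t)` are algebraically independent over the other variables, or
* for all `a_t ≥ 1` the number `- |S| / ∑ a_t d_t` is a root of all the polynomials which satisfy a
  local functional equation of the ideal `∏_t I_t ^ (a_t)` at the origin.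
(The first condition implies the second one.) -/
def TForm {n T r : ℕ} (S : Finset (Fin n)) (d : Fin T → ℕ)
    (f : Fin T → Fin r → MvPolynomial (Fin n) ℂ) : Prop :=
  S.Nonempty ∧ (∃ t, 0 < d t) ∧
    (∀ t j, (f t j).IsWeightedHomogeneous (fun i => if i ∈ S then 1 else 0) (d t)) ∧
    ((∃ e : S → Fin T → Fin r,
        (Matrix.of fun s u : S => pderiv (s : Fin n) (∏ t, f t (e u t))).det ≠ 0) ∨
      ((∀ t, ∃ j, f t j ≠ 0) ∧ ∀ a : Fin T → ℕ, (∀ t, 1 ≤ a t) → ∀ b, IsLocalBI (powF a f) b →
        b.eval (-(S.card : ℂ) / ∑ t, (a t : ℂ) * d t) = 0))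

/-- A chart for tuples of `T` ideals: polynomials `w` and `a_1, …, a_c`, indices `s_1, …, s_c` of
variables, and `T` families of polynomials `h_(t, k)` in `c` variables. -/
structure TChart (σ : Type) (T : ℕ) where
  /-- the codimension -/
  c : ℕ
  /-- the number of the `h_(t, k)` for each `t` -/
  r : ℕ
  /-- the numerators `a_u` of the functions `g_u = a_u / w` -/
  a : Fin c → MvPolynomial σ ℂ
  /-- the denominator `w` -/
  w : MvPolynomial σ ℂ
  /-- the indices `s_u` -/
  s : Fin c → σ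
  /-- the polynomials `h_(t, k)` -/
  h : Fin T → Fin r → MvPolynomial (Fin c) ℂ

/-- Where `w` does not vanish, each ideal `I_t` is generated by the `h_(t, k)(a_1/w, …, a_c/w)`. -/
def TChart.Fits {σ : Type} {T r : ℕ} (A : TChart σ T) (f : Fin T → Fin r → MvPolynomial σ ℂ) :
    Prop :=
  ∀ t, Same (f t) (A.h t) A.a A.w

/-- At `p` one has `w(p) ≠ 0`, `a_u(p) = 0`, and the minor `det (∂a_u / ∂x_(s_v))` does not vanish. -/
def TChart.Mem {σ : Type} {T : ℕ} (A : TChart σ T) (p : σ → ℂ) : Prop :=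
  eval p A.w ≠ 0 ∧ (∀ u, eval p (A.a u) = 0) ∧
    (Matrix.of fun u v => eval p (pderiv (A.s u) (A.a v))).det ≠ 0

/-- The tuple of all the `I_t` and `I'_t`, in disjoint sets of variables. -/
noncomputable def joinF {n T n' T' r : ℕ} (f : Fin T → Fin r → MvPolynomial (Fin n) ℂ)
    (g : Fin T' → Fin r → MvPolynomial (Fin n') ℂ) (t : Fin (T + T')) (j : Fin r) :
    MvPolynomial (Fin (n + n')) ℂ :=
  Sum.elim (fun t => rename (Fin.castAdd n') (f t j)) (fun t => rename (Fin.natAdd n) (g t j))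
    (finSumFinEquiv.symm t)

/-- The polynomials `F_t = ∑_j y_(t, j) f_(t, j)(x)`, in the variables `x_i` and `y_(t, j)`. -/
noncomputable def hypT {n T r : ℕ} (f : Fin T → Fin r → MvPolynomial (Fin n) ℂ) (t : Fin T) :
    MvPolynomial (Fin (n + T * r)) ℂ :=
  ∑ j, X (Fin.natAdd n (finProdFinEquiv (t, j))) * rename (Fin.castAdd (T * r)) (f t j)

/-- The smallest classes of tuples of ideals `I_t = (f_(t, j))_j`, `t = 1, …, T`, of polynomials in
`n` variables with the following properties: germs at the origin, tuples on `ℂ ^ n` which are covered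
by charts with such germs, and tuples on `ℂ ^ n`. -/
inductive TQ : Kd → (n T r : ℕ) → (Fin T → Fin r → MvPolynomial (Fin n) ℂ) → Prop
  /-- nonzero ideals of `ℂ[x, y]` -/
  | plane {T r : ℕ} (f : Fin T → Fin r → MvPolynomial (Fin 2) ℂ) (hf : ∀ t, ∃ j, f t j ≠ 0) :
      TQ .cov 2 T r f
  /-- forms of degrees `d_t` such that the charts `x_i = 1` are in the class -/
  | forms {n T r : ℕ} (f : Fin T → Fin r → MvPolynomial (Fin (n + 1)) ℂ) (d : Fin T → ℕ)
      (hf : TForm Finset.univ d f) (h : ∀ i, TQ .cov n T r fun t j => dehC i (f t j)) :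
      TQ .cov (n + 1) T r f
  /-- tuples such that every point at which one of the ideals `I_t` is not the unit ideal is in a chart
  of a finite set -/
  | charts {n T r : ℕ} (f : Fin T → Fin r → MvPolynomial (Fin n) ℂ) (hf : ∀ t, ∃ j, f t j ≠ 0)
      (S : Set (TChart (Fin n) T)) (h0 : S.Finite) (hS : ∀ A ∈ S, A.Fits f)
      (hT : ∀ A ∈ S, TQ .germ A.c T A.r A.h)
      (hp : ∀ p : Fin n → ℂ, (∃ t, ∀ j, eval p (f t j) = 0) → ∃ A ∈ S, A.Mem p) : TQ .cov n T r f
  /-- the germ at the origin -/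
  | germ {n T r : ℕ} (f : Fin T → Fin r → MvPolynomial (Fin n) ℂ) (hf : TQ .cov n T r f) :
      TQ .germ n T r f
  /-- tuples which are covered by charts -/
  | glob {n T r : ℕ} (f : Fin T → Fin r → MvPolynomial (Fin n) ℂ) (hf : TQ .cov n T r f) :
      TQ .glob n T r f
  /-- forms of degrees `d_t` in the variables `x_i`, `i ∈ S`, such that every point `p ≠ 0` with
  `p_i = 0` for `i ∉ S` at which one of the ideals is not the unit ideal is in a chart -/
  | cone {n T r : ℕ} (f : Fin T → Fin r → MvPolynomial (Fin n) ℂ) (S : Finset (Fin n))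
      (d : Fin T → ℕ) (hf : TForm S d f) (B : Set (TChart (Fin n) T)) (h0 : B.Finite)
      (hB : ∀ A ∈ B, A.Fits f) (hT : ∀ A ∈ B, TQ .germ A.c T A.r A.h)
      (hp : ∀ p : Fin n → ℂ, p ≠ 0 → (∀ i ∉ S, p i = 0) → (∃ t, ∀ j, eval p (f t j) = 0) →
        ∃ A ∈ B, A.Mem p) : TQ .germ n T r f
  /-- forms of degrees `d_t` in the variables `x_i`, `i ∈ S`, such that every point `p` with `p_i ≠ 0`
  for some `i ∈ S` at which one of the ideals is not the unit ideal is in a chart -/
  | gcone {n T r : ℕ} (f : Fin T → Fin r → MvPolynomial (Fin n) ℂ) (S : Finset (Fin n))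
      (d : Fin T → ℕ) (hf : TForm S d f) (B : Set (TChart (Fin n) T)) (h0 : B.Finite)
      (hB : ∀ A ∈ B, A.Fits f) (hT : ∀ A ∈ B, TQ .germ A.c T A.r A.h)
      (hp : ∀ p : Fin n → ℂ, (∃ i ∈ S, p i ≠ 0) → (∃ t, ∀ j, eval p (f t j) = 0) →
        ∃ A ∈ B, A.Mem p) : TQ .glob n T r f
  /-- the products `I_t I'_t` of the ideals of two tuples in disjoint sets of variables -/
  | mul {k : Kd} {n T r n' r' : ℕ} (f : Fin T → Fin r → MvPolynomial (Fin n) ℂ)
      (g : Fin T → Fin r' → MvPolynomial (Fin n') ℂ) (hf : TQ k n T r f) (hg : TQ k n' T r' g) :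
      TQ k (n + n') T (r * r') fun t => mulF (f t) (g t)
  /-- the tuple of all ideals of two tuples in disjoint sets of variables -/
  | join {k : Kd} {n T n' T' r : ℕ} (f : Fin T → Fin r → MvPolynomial (Fin n) ℂ)
      (g : Fin T' → Fin r → MvPolynomial (Fin n') ℂ) (hf : TQ k n T r f) (hg : TQ k n' T' r g) :
      TQ k (n + n') (T + T') r (joinF f g)
  /-- products of powers of the ideals of the tuple, each of which occurs at least once -/
  | mono {k : Kd} {n T r T' r' : ℕ} (f : Fin T → Fin r → MvPolynomial (Fin n) ℂ)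
      (m : Fin T' → Fin T → ℕ) (hm : ∀ t, ∃ s, 0 < m s t)
      (h : Fin T' → Fin r' → MvPolynomial (Fin n) ℂ)
      (hs : ∀ s, Ideal.span (Set.range (h s)) = ∏ t, Ideal.span (Set.range (f t)) ^ m s t)
      (hf : TQ k n T r f) : TQ k n T' r' h
  /-- the tuple of the polynomials `F_t = ∑_j y_(t, j) f_(t, j)` -/
  | hyp {k : Kd} (hk : k ≠ .cov) {n T r : ℕ} (f : Fin T → Fin r → MvPolynomial (Fin n) ℂ)
      (hf : TQ k n T r f) : TQ k (n + T * r) T 1 fun t _ => hypT f t
  /-- germs: in `ℂ[[x]]`, for each `t` the `f_(t, j)` generate the same ideal as the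
  `h_(t, k)(g_1, …, g_c)`, where `g_1, …, g_c` are a part of a system of formal coordinates -/
  | formal {n T r c l : ℕ} (f : Fin T → Fin r → MvPolynomial (Fin n) ℂ)
      (h : Fin T → Fin l → MvPolynomial (Fin c) ℂ) (g : Fin c → MvPowerSeries (Fin n) ℂ)
      (s : Fin c → Fin n) (hg : ∀ u, MvPowerSeries.constantCoeff (g u) = 0)
      (hd : (Matrix.of fun u v => MvPowerSeries.coeff (Finsupp.single (s u) 1) (g v)).det ≠ 0)
      (hs : ∀ t, Ideal.span (Set.range fun j =>
          ((f t j : MvPolynomial (Fin n) ℂ) : MvPowerSeries (Fin n) ℂ)) =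
        Ideal.span (Set.range fun k => aeval g (h t k))) (hh : TQ .germ c T l h) :
      TQ .germ n T r f
  /-- single ideals of the classes `QC` -/
  | quad {k : Kd} {n r : ℕ} (f : Fin r → MvPolynomial (Fin n) ℂ) (hf : QC k false n r f) :
      TQ k n 1 r fun _ => f
  /-- single ideals of the class `Tower` -/
  | tower {n r : ℕ} (f : Fin r → MvPolynomial (Fin n) ℂ) (hf : Tower false n r f) :
      TQ .germ n 1 r fun _ => f
  /-- single ideals of the class `Glob` -/
  | tglob {n r : ℕ} (f : Fin r → MvPolynomial (Fin n) ℂ) (hf : Glob false n r f) :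
      TQ .glob n 1 r fun _ => f

end Pool.Agent.Q57.QT
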