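import Mathlib

set_option autoImplicit false
set_option linter.unusedSectionVars false
set_option linter.unusedVariables false

/-! # Rational points on a hyperplane -/

namespace Pool.Agent.Q57.QT

open MvPolynomial

section dens

variable {T : ℕ}

theorem rat_infinite (z δ : ℝ) (hδ : 0 < δ) : Set.Infinite {q : ℚ | |(q : ℝ) - z| < δ} := by
  obtain ⟨r, hr1, hr2⟩ := exists_rat_btwn (show z < z + δ by linarith)
  obtain ⟨r', hr1', hr2'⟩ := exists_rat_btwn hr2
  have h1 : r < r' := by exact_mod_cast hr1'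
  refine (Set.Ioo_infinite h1).mono fun q hq => ?_
  have h2 : (r : ℝ) < q := by exact_mod_cast hq.1
  have h3 : (q : ℝ) < r' := by exact_mod_cast hq.2
  change |(q : ℝ) - z| < δ
  rw [abs_lt]
  constructor <;> linarith

/-- **Density.** -/
theorem dense_rat (z : Fin T → ℝ) (δ : ℝ) (hδ : 0 < δ) {G : MvPolynomial (Fin T) ℂ} (hG : G ≠ 0) :
    ∃ q : Fin T → ℚ, (∀ t, |(q t : ℝ) - z t| < δ) ∧ eval (fun t => (q t : ℂ)) G ≠ 0 := by
  by_contra hcon
  push Not at hcon
  apply hG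
  refine MvPolynomial.funext_set (fun t => (fun q : ℚ => (q : ℂ)) '' {q : ℚ | |(q : ℝ) - z t| < δ})
    (fun t => (rat_infinite (z t) δ hδ).image fun a _ b _ h => by exact_mod_cast h) fun x hx => ?_
  choose q hq hq' using fun t => hx t (Set.mem_univ t)
  have h1 : x = fun t => (q t : ℂ) := funext fun t => (hq' t).symm
  rw [h1, map_zero]
  exact hcon q hq

end dens

section rho

variable {T : ℕ} (ν : ℕ) (N : Fin T → ℕ) (t₀ : Fin T)

/-- the projection to the hyperplane, in the direction of the coordinate `t₀` -/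
noncomputable def rho {K : Type} [Field K] (z : Fin T → K) : Fin T → K :=
  Function.update z t₀ (-((ν : K) + ∑ t ∈ Finset.univ.erase t₀, (N t : K) * z t) / N t₀)

theorem rho_map {K L : Type} [Field K] [Field L] (φ : K →+* L) (z : Fin T → K) (t : Fin T) :
    φ (rho ν N t₀ z t) = rho ν N t₀ (fun t => φ (z t)) t := by
  unfold rho
  by_cases h : t = t₀
  · subst h
    rw [Function.update_self, Function.update_self, map_div₀, map_neg, map_add, map_natCast,
      map_natCast, map_sum]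
    simp only [map_mul, map_natCast]
  · rw [Function.update_of_ne h, Function.update_of_ne h]

theorem rho_mem {K : Type} [Field K] [CharZero K] (hN : 0 < N t₀) (z : Fin T → K) :
    (ν : K) + ∑ t, (N t : K) * rho ν N t₀ z t = 0 := by
  classical
  rw [← Finset.add_sum_erase _ _ (Finset.mem_univ t₀)]
  have h1 : ∑ t ∈ Finset.univ.erase t₀, (N t : K) * rho ν N t₀ z t =
      ∑ t ∈ Finset.univ.erase t₀, (N t : K) * z t := by
    refine Finset.sum_congr rfl fun t ht => ?_
    unfold rho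
    rw [Function.update_of_ne (Finset.ne_of_mem_erase ht)]
  rw [h1]
  unfold rho
  rw [Function.update_self]
  have h2 : (N t₀ : K) ≠ 0 := by exact_mod_cast hN.ne'
  field_simp
  ring

theorem rho_eq {K : Type} [Field K] [CharZero K] (hN : 0 < N t₀) (z : Fin T → K)
    (hz : (ν : K) + ∑ t, (N t : K) * z t = 0) : rho ν N t₀ z = z := by
  classical
  unfold rho
  rw [Function.update_eq_self_iff]
  rw [← Finset.add_sum_erase _ _ (Finset.mem_univ t₀)] at hz
  have h2 : (N t₀ : K) ≠ 0 := by exact_mod_cast hN.ne'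
  rw [div_eq_iff h2]
  linear_combination -hz

/-- the projection as a map of polynomials -/
noncomputable def rhoP (t : Fin T) : MvPolynomial (Fin T) ℂ :=
  if t = t₀ then C (-1 / (N t₀ : ℂ)) * (C (ν : ℂ) + ∑ t ∈ Finset.univ.erase t₀, C (N t : ℂ) * X t)
  else X t

theorem eval_rhoP (z : Fin T → ℂ) (t : Fin T) : eval z (rhoP ν N t₀ t) = rho ν N t₀ z t := by
  unfold rhoP rho
  by_cases h : t = t₀
  · subst h
    rw [if_pos rfl, Function.update_self, map_mul, map_add, eval_C, eval_C, map_sum]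
    simp only [map_mul, eval_C, eval_X]
    ring
  · rw [if_neg h, Function.update_of_ne h, eval_X]

/-- the restriction of a polynomial to the hyperplane -/
noncomputable def restr (G : MvPolynomial (Fin T) ℂ) : MvPolynomial (Fin T) ℂ :=
  aeval (rhoP ν N t₀) G

theorem eval_restr (G : MvPolynomial (Fin T) ℂ) (z : Fin T → ℂ) :
    eval z (restr ν N t₀ G) = eval (rho ν N t₀ z) G := by
  have h1 : ((eval z).comp ((aeval (rhoP ν N t₀) : MvPolynomial (Fin T) ℂ →ₐ[ℂ]
      MvPolynomial (Fin T) ℂ) : MvPolynomial (Fin T) ℂ →+* MvPolynomial (Fin T) ℂ)) =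
      eval (rho ν N t₀ z) := by
    refine MvPolynomial.ringHom_ext (fun r => ?_) fun t => ?_
    · simp
    · simp [eval_rhoP]
  exact congrArg (fun g : MvPolynomial (Fin T) ℂ →+* ℂ => g G) h1

/-- the polynomial `b(ρ(z) + τ)` in `τ` -/
noncomputable def bet (b : MvPolynomial (Fin T) ℂ) : Polynomial (MvPolynomial (Fin T) ℂ) :=
  aeval (fun t => Polynomial.C (rhoP ν N t₀ t) + Polynomial.X) b

theorem eval_bet (b : MvPolynomial (Fin T) ℂ) (z : Fin T → ℂ) (τ : ℂ) :
    ((bet ν N t₀ b).map (eval z)).eval τ = eval (fun t => rho ν N t₀ z t + τ) b := by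
  have h1 : ((Polynomial.evalRingHom τ).comp ((Polynomial.mapRingHom (eval z)).comp
      ((aeval (fun t => Polynomial.C (rhoP ν N t₀ t) + Polynomial.X) :
        MvPolynomial (Fin T) ℂ →ₐ[ℂ] Polynomial (MvPolynomial (Fin T) ℂ)) :
        MvPolynomial (Fin T) ℂ →+* Polynomial (MvPolynomial (Fin T) ℂ)))) =
      eval (fun t => rho ν N t₀ z t + τ) := by
    refine MvPolynomial.ringHom_ext (fun r => ?_) fun t => ?_
    · simp
    · simp [eval_rhoP]
  exact congrArg (fun g : MvPolynomial (Fin T) ℂ →+* ℂ => g b) h1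

/-- common denominators -/
theorem common_den (y : Fin T → ℚ) (hy : ∀ t, 0 < y t) :
    ∃ (L : ℕ) (a : Fin T → ℕ), 0 < L ∧ ∀ t, 1 ≤ a t ∧ (a t : ℚ) = L * y t := by
  classical
  have h1 : ∀ t, ∃ k : ℕ, ∏ u, (y u).den = (y t).den * k := fun t =>
    Finset.dvd_prod_of_mem (fun u => (y u).den) (Finset.mem_univ t)
  choose k hk using h1
  have hL : 0 < ∏ u, (y u).den := Finset.prod_pos fun u _ => (y u).den_pos
  refine ⟨∏ u, (y u).den, fun t => k t * (y t).num.toNat, hL, fun t => ?_⟩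
  have h2 : 0 < (y t).num := Rat.num_pos.2 (hy t)
  have h3 : (((y t).num.toNat : ℕ) : ℤ) = (y t).num := Int.toNat_of_nonneg h2.le
  constructor
  · have h4 : 0 < k t := by
      rcases Nat.eq_zero_or_pos (k t) with h | h
      · have h5 := hk t
        rw [h, mul_zero] at h5
        omega
      · exact h
    exact Nat.mul_pos h4 (by omega)
  · rw [hk t]
    push_cast
    have h5 : (((y t).num.toNat : ℕ) : ℚ) = ((y t).num : ℚ) := by exact_mod_cast h3
    have h6 : (y t) * (y t).den = (y t).num := Rat.mul_den_eq_num (y t)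
    rw [h5, ← h6]
    ring

end rho

section geo

variable {T : ℕ} (ν : ℕ) (hν : 0 < ν) (N : Fin T → ℕ) (t₀ : Fin T) (hN : 0 < N t₀)

include hν hN

theorem rho_neg : ∃ z : Fin T → ℝ, ∀ t, rho ν N t₀ z t < 0 := by
  classical
  set S : ℝ := ∑ t ∈ Finset.univ.erase t₀, (N t : ℝ) with hS
  have hS0 : 0 ≤ S := Finset.sum_nonneg fun t _ => Nat.cast_nonneg _
  refine ⟨fun _ => -(1 / (S + 1)), fun t => ?_⟩
  have hε : 0 < 1 / (S + 1) := by positivity
  unfold rho
  by_cases h : t = t₀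
  · subst h
    rw [Function.update_self]
    have h1 : ∑ u ∈ Finset.univ.erase t, (N u : ℝ) * -(1 / (S + 1)) = -(S / (S + 1)) := by
      rw [← Finset.sum_mul, ← hS]
      ring
    rw [h1]
    have h2 : S / (S + 1) < 1 := by
      rw [div_lt_one (by positivity)]
      linarith
    have h3 : (1 : ℝ) ≤ ν := by exact_mod_cast hν
    have h4 : (0 : ℝ) < N t := by exact_mod_cast hN
    apply div_neg_of_neg_of_pos _ h4
    linarith
  · rw [Function.update_of_ne h]
    linarith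

theorem continuous_rho (t : Fin T) : Continuous fun z : Fin T → ℝ => rho ν N t₀ z t := by
  unfold rho
  by_cases h : t = t₀
  · subst h
    simp only [Function.update_self]
    fun_prop
  · simp only [Function.update_of_ne h]
    fun_prop

theorem continuous_evalC (G : MvPolynomial (Fin T) ℂ) :
    Continuous fun z : Fin T → ℝ => eval (fun t => ((z t : ℝ) : ℂ)) G := by
  exact (MvPolynomial.continuous_eval G).comp (by fun_prop)

/-- the bound for the zeros in `τ` -/
theorem bound_tau (B : Polynomial (MvPolynomial (Fin T) ℂ)) (z' : Fin T → ℝ)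
    (hB : eval (fun t => ((z' t : ℝ) : ℂ)) B.leadingCoeff ≠ 0) :
    ∃ δ : ℝ, 0 < δ ∧ ∃ K : ℕ, ∀ z : Fin T → ℝ, (∀ t, |z t - z' t| < δ) → ∀ i : ℕ, K ≤ i →
      (B.map (eval fun t => ((z t : ℝ) : ℂ))).eval (i : ℂ) ≠ 0 := by
  set J := B.natDegree with hJ
  set φ : (Fin T → ℝ) × ℂ → ℂ := fun p =>
    ∑ j ∈ Finset.range (J + 1), eval (fun t => ((p.1 t : ℝ) : ℂ)) (B.coeff j) * p.2 ^ (J - j) with hφ
  have hc : Continuous φ := by
    refine continuous_finsetSum _ fun j _ => ?_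
    refine Continuous.mul ?_ (by fun_prop)
    exact (continuous_evalC ν hν N t₀ hN (B.coeff j)).comp continuous_fst
  have h0 : φ (z', 0) ≠ 0 := by
    have h1 : φ (z', 0) = eval (fun t => ((z' t : ℝ) : ℂ)) B.leadingCoeff := by
      rw [hφ]
      simp only
      rw [Finset.sum_eq_single J]
      · rw [Nat.sub_self, pow_zero, mul_one]
        rfl
      · intro j hj hjJ
        rw [Finset.mem_range] at hj
        rw [zero_pow (by omega), mul_zero]
      · intro h
        exact absurd (Finset.mem_range.2 (Nat.lt_succ_self J)) h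
    rw [h1]
    exact hB
  have h2 : ∀ᶠ p in nhds ((z', 0) : (Fin T → ℝ) × ℂ), φ p ≠ 0 :=
    hc.continuousAt.eventually_ne h0
  rw [Metric.eventually_nhds_iff] at h2
  obtain ⟨δ, hδ, h3⟩ := h2
  obtain ⟨K, hK⟩ := exists_nat_gt (1 / δ)
  refine ⟨δ, hδ, K, fun z hz i hi => ?_⟩
  have hK0 : (0 : ℝ) < K := lt_trans (by positivity) hK
  have hi0 : (0 : ℝ) < i := lt_of_lt_of_le hK0 (by exact_mod_cast hi)
  have hi1 : (i : ℂ) ≠ 0 := by
    have : (i : ℝ) ≠ 0 := hi0.ne'
    exact_mod_cast this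
  have h4 : dist ((z, (i : ℂ)⁻¹) : (Fin T → ℝ) × ℂ) (z', 0) < δ := by
    rw [Prod.dist_eq, max_lt_iff]
    constructor
    · rw [dist_pi_lt_iff hδ]
      intro t
      rw [Real.dist_eq]
      exact hz t
    · rw [dist_zero_right, norm_inv, Complex.norm_natCast]
      have h5 : 1 / δ < i := lt_of_lt_of_le hK (by exact_mod_cast hi)
      rw [inv_lt_comm₀ hi0 hδ, inv_eq_one_div]
      exact h5
  have h5 := h3 h4
  intro h6
  apply h5
  have h7 : φ (z, (i : ℂ)⁻¹) * (i : ℂ) ^ J =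
      (B.map (eval fun t => ((z t : ℝ) : ℂ))).eval (i : ℂ) := by
    rw [Polynomial.eval_map, Polynomial.eval₂_eq_sum_range, hφ, Finset.sum_mul]
    refine Finset.sum_congr rfl fun j hj => ?_
    rw [Finset.mem_range] at hj
    obtain ⟨k, hk⟩ : ∃ k, J = j + k := ⟨J - j, by omega⟩
    rw [hk, Nat.add_sub_cancel_left, mul_assoc, pow_add, inv_pow]
    field_simp
  rw [h6] at h7
  exact (mul_eq_zero.1 h7).resolve_right (pow_ne_zero _ hi1)

/-- **Rational points on the hyperplane.** -/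
theorem exists_line (g b : MvPolynomial (Fin T) ℂ)
    (hg : ∃ z : Fin T → ℂ, (ν : ℂ) + ∑ t, (N t : ℂ) * z t = 0 ∧ eval z g ≠ 0)
    (hb : ∀ i : ℕ, ∃ z : Fin T → ℂ, (ν : ℂ) + ∑ t, (N t : ℂ) * z t = 0 ∧
      eval (fun t => z t + i) b ≠ 0) :
    ∃ (a : Fin T → ℕ) (s₀ : ℂ), (∀ t, 1 ≤ a t) ∧ (ν : ℂ) + ∑ t, (N t : ℂ) * (s₀ * a t) = 0 ∧
      eval (fun t => s₀ * a t) g ≠ 0 ∧ ∀ i : ℕ, eval (fun t => s₀ * a t + i) b ≠ 0 := by
  classical
  set B := bet ν N t₀ b with hBdef
  have hBi : ∀ i : ℕ, B.eval (C (i : ℂ)) ≠ 0 := by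
    intro i h0
    obtain ⟨z, hz, hzb⟩ := hb i
    apply hzb
    have h1 := eval_bet ν N t₀ b z (i : ℂ)
    rw [rho_eq ν N t₀ hN z hz] at h1
    rw [← h1, ← hBdef, Polynomial.eval_map]
    have h2 := congrArg (eval z) h0
    rw [map_zero, Polynomial.eval, Polynomial.hom_eval₂, RingHom.comp_id, eval_C] at h2
    exact h2
  have hB0 : B ≠ 0 := by
    intro h0
    exact hBi 0 (by rw [h0, Polynomial.eval_zero])
  have hg0 : restr ν N t₀ g ≠ 0 := by
    intro h0
    obtain ⟨z, hz, hzg⟩ := hg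
    apply hzg
    have h1 := eval_restr ν N t₀ g z
    rw [rho_eq ν N t₀ hN z hz, h0, map_zero] at h1
    exact h1.symm
  obtain ⟨zz, hzz⟩ := rho_neg ν hν N t₀ hN
  -- the open set
  have hopen : IsOpen {z : Fin T → ℝ | ∀ t, rho ν N t₀ z t < 0} := by
    have h1 : {z : Fin T → ℝ | ∀ t, rho ν N t₀ z t < 0} =
        ⋂ t, {z : Fin T → ℝ | rho ν N t₀ z t < 0} := by
      ext z
      simp only [Set.mem_ofPred_eq, Set.mem_iInter]
    rw [h1]
    exact isOpen_iInter_of_finite fun t =>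
      isOpen_lt (continuous_rho ν hν N t₀ hN t) continuous_const
  have hnear : ∀ z' : Fin T → ℝ, (∀ t, rho ν N t₀ z' t < 0) → ∃ δ : ℝ, 0 < δ ∧
      ∀ z : Fin T → ℝ, (∀ t, |z t - z' t| < δ) → ∀ t, rho ν N t₀ z t < 0 := by
    intro z' hz'
    obtain ⟨δ, hδ, h1⟩ := Metric.isOpen_iff.1 hopen z' hz'
    refine ⟨δ, hδ, fun z hz => ?_⟩
    refine h1 ?_
    rw [Metric.mem_ball, dist_pi_lt_iff hδ]
    intro t
    rw [Real.dist_eq]
    exact hz t
  obtain ⟨δ₀, hδ₀, hU₀⟩ := hnear zz hzz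
  have hlc : B.leadingCoeff ≠ 0 := Polynomial.leadingCoeff_ne_zero.2 hB0
  obtain ⟨q', hq', hq'B⟩ := dense_rat zz δ₀ hδ₀ hlc
  set z' : Fin T → ℝ := fun t => (q' t : ℝ) with hz'
  have hz'B : eval (fun t => ((z' t : ℝ) : ℂ)) B.leadingCoeff ≠ 0 := by
    have h1 : (fun t => ((z' t : ℝ) : ℂ)) = fun t => (q' t : ℂ) := by
      funext t
      rw [hz']
      push_cast
      rfl
    rw [h1]
    exact hq'B
  obtain ⟨δ₁, hδ₁, K, hK⟩ := bound_tau ν hν N t₀ hN B z' hz'B
  obtain ⟨δ₂, hδ₂, hU₂⟩ := hnear z' (hU₀ z' hq')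
  -- the polynomial
  have hG : restr ν N t₀ g * ∏ i ∈ Finset.range K, B.eval (C (i : ℂ)) ≠ 0 :=
    mul_ne_zero hg0 (Finset.prod_ne_zero_iff.2 fun i _ => hBi i)
  obtain ⟨q, hq, hqG⟩ := dense_rat z' (min δ₁ δ₂) (lt_min hδ₁ hδ₂) hG
  have hq1 : ∀ t, |((q t : ℚ) : ℝ) - z' t| < δ₁ := fun t => lt_of_lt_of_le (hq t) (min_le_left _ _)
  have hq2 : ∀ t, |((q t : ℚ) : ℝ) - z' t| < δ₂ := fun t => lt_of_lt_of_le (hq t) (min_le_right _ _)
  have hneg : ∀ t, rho ν N t₀ q t < 0 := by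
    intro t
    have h1 := hU₂ (fun t => ((q t : ℚ) : ℝ)) hq2 t
    have h2 := rho_map ν N t₀ (Rat.castHom ℝ) q t
    simp only [Rat.coe_castHom] at h2
    rw [← h2] at h1
    exact_mod_cast h1
  obtain ⟨L, a, hL, ha⟩ := common_den (fun t => -rho ν N t₀ q t) fun t => by
    have := hneg t
    linarith
  have hL0 : (L : ℂ) ≠ 0 := by exact_mod_cast hL.ne'
  have hpt : ∀ t, (-1 / (L : ℂ)) * a t = rho ν N t₀ (fun t => ((q t : ℚ) : ℂ)) t := by
    intro t
    have h2 := rho_map ν N t₀ (Rat.castHom ℂ) q t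
    simp only [Rat.coe_castHom] at h2
    rw [← h2]
    have h3 := (ha t).2
    have h4 : (a t : ℂ) = L * -((rho ν N t₀ q t : ℚ) : ℂ) := by exact_mod_cast h3
    rw [h4]
    field_simp
  have hpt' : (fun t => (-1 / (L : ℂ)) * a t) = rho ν N t₀ (fun t => ((q t : ℚ) : ℂ)) :=
    funext hpt
  rw [map_mul] at hqG
  refine ⟨a, -1 / (L : ℂ), fun t => (ha t).1, ?_, ?_, fun i => ?_⟩
  · have h1 := rho_mem ν N t₀ hN (fun t => ((q t : ℚ) : ℂ))
    simp only [hpt]
    exact h1
  · rw [hpt', ← eval_restr]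
    exact left_ne_zero_of_mul hqG
  · have h1 : eval (fun t => -1 / (L : ℂ) * (a t : ℂ) + i) b =
        (B.map (eval fun t => ((q t : ℚ) : ℂ))).eval (i : ℂ) := by
      rw [hBdef, eval_bet]
      simp only [hpt]
    rw [h1]
    rcases lt_or_ge i K with hi | hi
    · have h2 := right_ne_zero_of_mul hqG
      rw [map_prod, Finset.prod_ne_zero_iff] at h2
      have h3 := h2 i (Finset.mem_range.2 hi)
      rw [Polynomial.eval, Polynomial.hom_eval₂, RingHom.comp_id, eval_C] at h3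
      rw [Polynomial.eval_map]
      exact h3
    · have h2 := hK (fun t => ((q t : ℚ) : ℝ)) hq1 i hi
      have h3 : (fun t => ((((q t : ℚ) : ℝ)) : ℂ)) = fun t => ((q t : ℚ) : ℂ) := by
        funext t
        push_cast
        rfl
      rw [h3] at h2
      exact h2

end geo

end Pool.Agent.Q57.QT
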