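import Pool.Agent.Q57.QT.Pow

set_option autoImplicit false
set_option linter.unusedSectionVars false
set_option linter.unusedVariables false

/-! # The induction for tuples of ideals -/

namespace Pool.Agent.Q57.QT

open MvPolynomial Pool.Agent.W428.MOT Pool.Agent.TH192.MT Pool.Agent.TH192.DT Pool.Agent.Q49.CO
open Pool.Agent.Y229 Pool.Agent.Q57.MC Pool.Agent.Q57.MD Pool.Agent.Q57.QM

/-! ## Ideals -/

theorem span_mulF {n r n' r' : ℕ} (f : Fin r → MvPolynomial (Fin n) ℂ)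
    (g : Fin r' → MvPolynomial (Fin n') ℂ) :
    Ideal.span (Set.range (mulF f g)) =
      Ideal.span (Set.range fun j => rename (Fin.castAdd n') (f j)) *
        Ideal.span (Set.range fun j => rename (Fin.natAdd n) (g j)) := by
  rw [Ideal.span_mul_span']
  congr 1
  ext y
  rw [Set.mem_mul]
  constructor
  · rintro ⟨k, rfl⟩
    exact ⟨_, ⟨(finProdFinEquiv.symm k).1, rfl⟩, _, ⟨(finProdFinEquiv.symm k).2, rfl⟩, rfl⟩
  · rintro ⟨_, ⟨i, rfl⟩, _, ⟨j, rfl⟩, rfl⟩
    refine ⟨finProdFinEquiv (i, j), ?_⟩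
    unfold mulF
    rw [Equiv.symm_apply_apply]

theorem span_ren (H : StSpan) {n n' T r : ℕ} (e : Fin n → Fin n') (a : Fin T → ℕ)
    (f : Fin T → Fin r → MvPolynomial (Fin n) ℂ) :
    Ideal.span (Set.range fun k => rename e (reF (powF a f) k)) =
      ∏ t, Ideal.span (Set.range fun j => rename e (f t j)) ^ a t := by
  rw [reF_range (fun x => rename e x)]
  exact H (rename e : MvPolynomial (Fin n) ℂ →ₐ[ℂ] MvPolynomial (Fin n') ℂ).toRingHom a f

theorem span_mul (H : StSpan) {n T r n' r' : ℕ} (a : Fin T → ℕ)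
    (f : Fin T → Fin r → MvPolynomial (Fin n) ℂ) (g : Fin T → Fin r' → MvPolynomial (Fin n') ℂ) :
    Ideal.span (Set.range (powF a fun t => mulF (f t) (g t))) =
      Ideal.span (Set.range (mulF (reF (powF a f)) (reF (powF a g)))) := by
  rw [span_mulF, span_ren H, span_ren H, span_powF H, ← Finset.prod_mul_distrib]
  refine Finset.prod_congr rfl fun t _ => ?_
  rw [span_mulF, mul_pow]

theorem span_join (H : StSpan) {n T n' T' r : ℕ} (a : Fin (T + T') → ℕ)
    (f : Fin T → Fin r → MvPolynomial (Fin n) ℂ) (g : Fin T' → Fin r → MvPolynomial (Fin n') ℂ) :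
    Ideal.span (Set.range (powF a (joinF f g))) =
      Ideal.span (Set.range (mulF (reF (powF (fun t => a (Fin.castAdd T' t)) f))
        (reF (powF (fun t => a (Fin.natAdd T t)) g)))) := by
  rw [span_mulF, span_ren H, span_ren H, span_powF H, Fin.prod_univ_add]
  congr 1
  · refine Finset.prod_congr rfl fun t _ => ?_
    congr 3
    funext j
    unfold joinF
    rw [finSumFinEquiv_symm_apply_castAdd, Sum.elim_inl]
  · refine Finset.prod_congr rfl fun t _ => ?_
    congr 3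
    funext j
    unfold joinF
    rw [finSumFinEquiv_symm_apply_natAdd, Sum.elim_inr]

theorem span_mono (H : StSpan) {n T r T' r' : ℕ} (b : Fin T' → ℕ)
    (f : Fin T → Fin r → MvPolynomial (Fin n) ℂ) (m : Fin T' → Fin T → ℕ)
    (h : Fin T' → Fin r' → MvPolynomial (Fin n) ℂ)
    (hs : ∀ s, Ideal.span (Set.range (h s)) = ∏ t, Ideal.span (Set.range (f t)) ^ m s t) :
    Ideal.span (Set.range (powF b h)) =
      Ideal.span (Set.range (powF (fun t => ∑ s, m s t * b s) f)) := by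
  rw [span_powF H, span_powF H]
  have h1 : ∀ s, Ideal.span (Set.range (h s)) ^ b s =
      ∏ t, Ideal.span (Set.range (f t)) ^ (m s t * b s) := by
    intro s
    rw [hs s, ← Finset.prod_pow]
    exact Finset.prod_congr rfl fun t _ => (pow_mul _ _ _).symm
  rw [Finset.prod_congr rfl fun s _ => h1 s, Finset.prod_comm]
  exact Finset.prod_congr rfl fun t _ => Finset.prod_pow_eq_pow_sum _ _ _

theorem span_single (H : StSpan) {n r : ℕ} (a : Fin 1 → ℕ) (f : Fin r → MvPolynomial (Fin n) ℂ) :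
    Ideal.span (Set.range (powF a fun _ : Fin 1 => f)) = Ideal.span (Set.range (pw (a 0) f)) := by
  rw [span_powF H, Fin.prod_univ_one]
  exact (span_pw H (RingHom.id _) (a 0) f).symm

/-! ## The hypersurfaces -/

/-- the names of the variables -/
def eP (n T r : ℕ) : (Fin T × Fin r) ⊕ Fin n ≃ Fin (n + T * r) :=
  ((Equiv.sumCongr finProdFinEquiv (Equiv.refl (Fin n))).trans
    (Equiv.sumComm (Fin (T * r)) (Fin n))).trans finSumFinEquiv

theorem prod_hypT {n T r : ℕ} (a : Fin T → ℕ) (f : Fin T → Fin r → MvPolynomial (Fin n) ℂ) :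
    ∏ t, hypT f t ^ a t = rename (eP n T r) (prodY a f) := by
  unfold prodY
  rw [map_prod]
  refine Finset.prod_congr rfl fun t _ => ?_
  rw [map_pow, map_sum]
  congr 1
  unfold hypT
  refine Finset.sum_congr rfl fun j _ => ?_
  rw [map_mul, rename_X, rename_rename]
  rfl

theorem span_hypT (H : StSpan) {n T r : ℕ} (a : Fin T → ℕ)
    (f : Fin T → Fin r → MvPolynomial (Fin n) ℂ) :
    Ideal.span (Set.range (powF a fun t (_ : Fin 1) => hypT f t)) =
      Ideal.span (Set.range fun _ : Fin 1 => ∏ t, hypT f t ^ a t) := by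
  rw [span_powF H, Set.range_const, ← Ideal.prod_span_singleton]
  refine Finset.prod_congr rfl fun t _ => ?_
  rw [Set.range_const, Ideal.span_singleton_pow]

theorem hypT_ne {n T r : ℕ} (f : Fin T → Fin r → MvPolynomial (Fin n) ℂ) (t : Fin T)
    (hf : ∃ j, f t j ≠ 0) : hypT f t ≠ 0 := by
  classical
  obtain ⟨j0, hj⟩ := hf
  intro h0
  have h1 := congrArg (pderiv (Fin.natAdd n (finProdFinEquiv (t, j0)))) h0
  unfold hypT at h1
  rw [map_zero, map_sum] at h1
  have h2 : ∀ j, pderiv (Fin.natAdd n (finProdFinEquiv (t, j0)))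
      (X (Fin.natAdd n (finProdFinEquiv (t, j))) * rename (Fin.castAdd (T * r)) (f t j)) =
      if j = j0 then rename (Fin.castAdd (T * r)) (f t j) else 0 := by
    intro j
    have h3 : pderiv (Fin.natAdd n (finProdFinEquiv (t, j0)))
        (rename (Fin.castAdd (T * r)) (f t j)) = 0 := by
      refine pderiv_eq_zero_of_notMem_vars fun h4 => ?_
      obtain ⟨i, -, hi⟩ := Finset.mem_image.1 (vars_rename (Fin.castAdd (T * r)) (f t j) h4)
      have h5 := congrArg Fin.val hi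
      rw [Fin.val_castAdd, Fin.val_natAdd] at h5
      have := i.isLt
      omega
    rw [Derivation.leibniz, h3, smul_zero, zero_add, smul_eq_mul]
    split_ifs with h
    · rw [h, pderiv_X_self, mul_one]
    · rw [pderiv_X_of_ne, mul_zero]
      intro h4
      apply h
      have h5 := finProdFinEquiv.injective (Fin.natAdd_injective _ _ h4)
      exact (Prod.ext_iff.1 h5).2
  rw [Finset.sum_congr rfl fun j _ => h2 j, Finset.sum_ite_eq' Finset.univ j0,
    if_pos (Finset.mem_univ _)] at h1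
  exact hj (rename_injective _ (Fin.castAdd_injective _ _) (h1.trans (map_zero _).symm))

theorem gA_mem {R : Type} [CommRing R] (u : Rˣ) {D : Set (ℤ × ℤ)} (a : ℕ) (ha : 1 ≤ a)
    (hD : (-1, (a : ℤ)) ∈ D) : gA ((u⁻¹ : Rˣ) : R) a ∈ ratU u D := by
  refine geo_solve u (ν := 1) (N := a) (by omega) hD (gA ((u⁻¹ : Rˣ) : R) a) 1 (one_mem _) ?_
  ext N
  rw [map_add, mul_assoc, PowerSeries.coeff_C_mul, PowerSeries.coeff_X_pow_mul',
    PowerSeries.coeff_one, pow_one]
  simp only [gA, PowerSeries.coeff_mk]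
  rcases Nat.eq_zero_or_pos N with rfl | hN
  · have h1 : ¬ a ≤ 0 := by omega
    rw [if_pos rfl, if_neg h1, mul_zero, add_zero, if_pos (dvd_zero a), Nat.zero_div, pow_zero]
  · rw [if_neg hN.ne']
    by_cases h : a ∣ N
    · obtain ⟨k, rfl⟩ := h
      have hk : 1 ≤ k := by
        rcases Nat.eq_zero_or_pos k with rfl | hk
        · omega
        · exact hk
      obtain ⟨l, rfl⟩ := Nat.exists_eq_add_of_le hk
      have h1 : a ≤ a * (1 + l) := Nat.le_mul_of_pos_right a (by omega)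
      have h2 : a * (1 + l) - a = a * l := by
        rw [mul_add, mul_one]
        omega
      rw [if_pos (dvd_mul_right a _), if_pos h1, h2, if_pos (dvd_mul_right a _),
        Nat.mul_div_cancel_left _ (by omega), Nat.mul_div_cancel_left _ (by omega), zero_add,
        pow_add, pow_one]
    · rw [if_neg h]
      split_ifs with h1 h2
      · exfalso
        apply h
        have := (Nat.dvd_add_right (dvd_refl a)).2 h2
        rwa [Nat.add_sub_cancel' h1] at this
      · rw [mul_zero, zero_add]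
      · rw [mul_zero, zero_add]

section hyp

variable {M : Meas ℂ (MK ℂ)} (hL : M.L = ((Lu ℂ : (MK ℂ)ˣ) : MK ℂ))

theorem sf_hypT (H : StProdSF) {n T r : ℕ} (a : Fin T → ℕ) (ha : ∀ t, 1 ≤ a t)
    (f : Fin T → Fin r → MvPolynomial (Fin n) ℂ) (hf : ∀ t, ∃ j, f t j ≠ 0) (p : Fin n → ℂ) :
    (∀ α : ℂ, SF (powF a f) p α → SF (fun _ : Fin 1 => ∏ t, hypT f t ^ a t)
      (Sum.elim 0 p ∘ (eP n T r).symm) α) ∧
    ∀ t, SF (fun _ : Fin 1 => ∏ t, hypT f t ^ a t)
      (Sum.elim 0 p ∘ (eP n T r).symm) (-1 / (a t : ℂ)) := by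
  obtain ⟨h1, h2⟩ := H a ha f hf p
  have h3 : ∀ α, SF (fun _ : Fin 1 => prodY a f) (Sum.elim 0 p) α →
      SF (fun _ : Fin 1 => ∏ t, hypT f t ^ a t) (Sum.elim 0 p ∘ (eP n T r).symm) α := by
    intro α hα
    refine sf_equiv (eP n T r) (Equiv.refl _) (fun _ : Fin 1 => prodY a f) _
      (fun j => prod_hypT a f) _ α ?_
    have h4 : ((Sum.elim 0 p : (Fin T × Fin r) ⊕ Fin n → ℂ) ∘ (eP n T r).symm) ∘ (eP n T r) =
        (Sum.elim 0 p : (Fin T × Fin r) ⊕ Fin n → ℂ) := by
      funext x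
      simp
    rw [h4]
    exact hα
  exact ⟨fun α hα => h3 α (h1 α hα), fun t => h3 _ (h2 t)⟩

include hL

theorem pm_hypT (H : TSteps) {n T r : ℕ} (a : Fin T → ℕ) (ha : ∀ t, 1 ≤ a t)
    (f : Fin T → Fin r → MvPolynomial (Fin n) ℂ) (hf : ∀ t, ∃ j, f t j ≠ 0)
    (h : PM M false (powF a f)) : PM M false (fun _ : Fin 1 => ∏ t, hypT f t ^ a t) := by
  classical
  have hv : M.L * (((Lu ℂ)⁻¹ : (MK ℂ)ˣ) : MK ℂ) = 1 := by rw [hL, Units.mul_inv]
  obtain ⟨-, S, hS, hz⟩ := h
  have h0 : (Sum.elim 0 0 ∘ (eP n T r).symm : Fin (n + T * r) → ℂ) = 0 := by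
    rw [Pool.Agent.Q57.MC.elim_zero]
    rfl
  obtain ⟨h1, h2⟩ := sf_hypT H.prodsf a ha f hf 0
  rw [h0] at h1 h2
  refine ⟨⟨0, Finset.prod_ne_zero_iff.2 fun t _ => pow_ne_zero _ (hypT_ne f t (hf t))⟩,
    S ∪ Finset.univ.image (fun t => ((-1 : ℤ), (a t : ℤ))), fun q hq => ?_, ?_⟩
  · rcases Finset.mem_union.1 hq with hq | hq
    · obtain ⟨e1, e2, e3⟩ := hS q hq
      exact ⟨e1, e2, h1 _ e3⟩
    · obtain ⟨t, -, rfl⟩ := Finset.mem_image.1 hq
      refine ⟨by norm_num, by have := ha t; simp only; omega, ?_⟩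
      have e1 := h2 t
      simp only
      push_cast
      exact e1
  · rw [SW_false] at hz ⊢
    rw [(H.prodz M _ hv f a ha).2]
    refine Subalgebra.mul_mem _ (Subalgebra.mul_mem _ (rat_C _ _)
      (Subalgebra.prod_mem _ fun t _ => Subalgebra.mul_mem _ (rat_C _ _)
        (Subalgebra.mul_mem _ (Subalgebra.pow_mem _ (rat_X _) _) (gA_mem _ _ (ha t) ?_))))
      (rat_mono (Lu ℂ) ?_ hz)
    · exact Finset.mem_coe.2 (Finset.mem_union_right _
        (Finset.mem_image.2 ⟨t, Finset.mem_univ _, rfl⟩))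
    · exact fun q hq => Finset.mem_coe.2 (Finset.mem_union_left _ (Finset.mem_coe.1 hq))

theorem gm_hypT (H : TSteps) {n T r : ℕ} (a : Fin T → ℕ) (ha : ∀ t, 1 ≤ a t)
    (f : Fin T → Fin r → MvPolynomial (Fin n) ℂ) (hf : ∀ t, ∃ j, f t j ≠ 0)
    (h : GM M false (powF a f)) : GM M false (fun _ : Fin 1 => ∏ t, hypT f t ^ a t) := by
  classical
  have hv : M.L * (((Lu ℂ)⁻¹ : (MK ℂ)ˣ) : MK ℂ) = 1 := by rw [hL, Units.mul_inv]
  obtain ⟨-, S, hS, hz⟩ := h
  refine ⟨⟨0, Finset.prod_ne_zero_iff.2 fun t _ => pow_ne_zero _ (hypT_ne f t (hf t))⟩,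
    S ∪ Finset.univ.image (fun t => ((-1 : ℤ), (a t : ℤ))), fun q hq => ?_, ?_⟩
  · rcases Finset.mem_union.1 hq with hq | hq
    · obtain ⟨e1, e2, p, e3⟩ := hS q hq
      exact ⟨e1, e2, _, (sf_hypT H.prodsf a ha f hf p).1 _ e3⟩
    · obtain ⟨t, -, rfl⟩ := Finset.mem_image.1 hq
      refine ⟨by norm_num, by have := ha t; simp only; omega,
        Sum.elim 0 0 ∘ (eP n T r).symm, ?_⟩
      have e1 := (sf_hypT H.prodsf a ha f hf 0).2 t
      simp only
      push_cast
      exact e1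
  · rw [SW_false] at hz ⊢
    rw [(H.prodz M _ hv f a ha).1]
    refine Subalgebra.mul_mem _ (Subalgebra.prod_mem _ fun t _ => Subalgebra.mul_mem _ (rat_C _ _)
      (gA_mem _ _ (ha t) ?_)) (rat_mono (Lu ℂ) ?_ hz)
    · exact Finset.mem_coe.2 (Finset.mem_union_right _
        (Finset.mem_image.2 ⟨t, Finset.mem_univ _, rfl⟩))
    · exact fun q hq => Finset.mem_coe.2 (Finset.mem_union_left _ (Finset.mem_coe.1 hq))

end hyp

end Pool.Agent.Q57.QT
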