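import Pool.Agent.Q57.QT.Base

set_option autoImplicit false
set_option linter.unusedSectionVars false
set_option linter.unusedVariables false

/-! # Powers and products of powers: ideals, charts -/

namespace Pool.Agent.Q57.QT

open MvPolynomial Pool.Agent.W428.MOT Pool.Agent.TH192.MT Pool.Agent.TH192.DT Pool.Agent.Q49.CO
open Pool.Agent.Y229 Pool.Agent.Q57.MC Pool.Agent.Q57.MD Pool.Agent.Q57.QM

/-- the steps -/
structure TSteps : Prop where
  powsf : StPowSF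
  prodsf : StProdSF
  prodz : StProdZ
  powz : StPowZ
  dil : StDil
  jac : StJac
  span : StSpan
  trans : StTrans
  q : Steps

/-- the ideal generated by the products of powers -/
theorem span_powF (H : StSpan) {σ : Type} {T r : ℕ} (a : Fin T → ℕ)
    (f : Fin T → Fin r → MvPolynomial σ ℂ) :
    Ideal.span (Set.range (powF a f)) = ∏ t, Ideal.span (Set.range (f t)) ^ a t :=
  H (RingHom.id _) a f

/-- the products of powers for one family -/
theorem range_pw {σ A : Type} (φ : MvPolynomial σ ℂ → A) {r : ℕ} (a : ℕ)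
    (f : Fin r → MvPolynomial σ ℂ) :
    (Set.range fun j => φ (pw a f j)) =
      Set.range fun j => φ (powF (fun _ : Fin 1 => a) (fun _ => f) j) := by
  let e : Fin a ≃ (Σ _ : Fin 1, Fin a) :=
    { toFun := fun i => ⟨0, i⟩
      invFun := fun q => q.2
      left_inv := fun i => rfl
      right_inv := fun q => by
        rcases q with ⟨t, i⟩
        have : t = 0 := Subsingleton.elim _ _
        subst this
        rfl }
  ext y
  constructor
  · rintro ⟨j, rfl⟩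
    refine ⟨fun q => j (e.symm q), congrArg φ ?_⟩
    unfold powF pw
    exact (Fintype.prod_equiv e _ _ fun i => rfl).symm
  · rintro ⟨j, rfl⟩
    refine ⟨fun i => j (e i), congrArg φ ?_⟩
    unfold powF pw
    exact Fintype.prod_equiv e _ _ fun i => rfl

theorem span_pw (H : StSpan) {σ A : Type} [CommRing A] (φ : MvPolynomial σ ℂ →+* A) {r : ℕ} (a : ℕ)
    (f : Fin r → MvPolynomial σ ℂ) :
    Ideal.span (Set.range fun j => φ (pw a f j)) = Ideal.span (Set.range fun j => φ (f j)) ^ a := by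
  rw [range_pw, H φ]
  exact Fin.prod_univ_one _

section ne

variable {σ : Type}

theorem powF_ne {T r : ℕ} (a : Fin T → ℕ) (f : Fin T → Fin r → MvPolynomial σ ℂ)
    (hf : ∀ t, ∃ j, f t j ≠ 0) : ∃ j, powF a f j ≠ 0 := by
  choose j hj using hf
  refine ⟨fun q => j q.1, ?_⟩
  unfold powF
  exact Finset.prod_ne_zero_iff.2 fun q _ => hj q.1

theorem ne_of_powF {T r : ℕ} (a : Fin T → ℕ) (ha : ∀ t, 1 ≤ a t)
    (f : Fin T → Fin r → MvPolynomial σ ℂ) (h : ∃ j, powF a f j ≠ 0) : ∀ t, ∃ j, f t j ≠ 0 := by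
  obtain ⟨j, hj⟩ := h
  intro t
  exact ⟨_, Finset.prod_ne_zero_iff.1 hj ⟨t, ⟨0, ha t⟩⟩ (Finset.mem_univ _)⟩

theorem pw_ne {J : Type} (a : ℕ) (f : J → MvPolynomial σ ℂ) (hf : ∃ j, f j ≠ 0) :
    ∃ j, pw a f j ≠ 0 := by
  obtain ⟨j, hj⟩ := hf
  refine ⟨fun _ => j, ?_⟩
  unfold pw
  exact Finset.prod_ne_zero_iff.2 fun _ _ => hj

/-- the common zeros of the products -/
theorem powF_zero {T r : ℕ} (a : Fin T → ℕ) (f : Fin T → Fin r → MvPolynomial σ ℂ) (p : σ → ℂ)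
    (h : ∀ j, eval p (powF a f j) = 0) : ∃ t, ∀ j, eval p (f t j) = 0 := by
  by_contra hcon
  push Not at hcon
  choose j hj using hcon
  have h1 := h fun q => j q.1
  unfold powF at h1
  rw [map_prod] at h1
  obtain ⟨q, -, hq⟩ := Finset.prod_eq_zero_iff.1 h1
  exact hj q.1 hq

theorem pw_zero {J : Type} (a : ℕ) (f : J → MvPolynomial σ ℂ) (p : σ → ℂ)
    (h : ∀ j, eval p (pw a f j) = 0) : ∀ j, eval p (f j) = 0 := by
  intro j
  have h1 := h fun _ => j
  unfold pw at h1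
  rw [map_prod] at h1
  obtain ⟨q, -, hq⟩ := Finset.prod_eq_zero_iff.1 h1
  exact hq

end ne

section charts

/-- `Same` only depends on the images of the generators -/
theorem same_reF {σ J κ : Type} [Fintype J] [Fintype κ] {c : ℕ} (f : J → MvPolynomial σ ℂ)
    (h : κ → MvPolynomial (Fin c) ℂ) (a : Fin c → MvPolynomial σ ℂ) (w : MvPolynomial σ ℂ)
    (hs : Same f h a w) : Same (reF f) (reF h) a w := by
  unfold Same at hs ⊢
  rw [reF_range (fun x => algebraMap (MvPolynomial σ ℂ) (Localization.Away w) x) f,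
    reF_range (fun x => frac a w x) h]
  exact hs

/-- `frac a w` as a ring homomorphism -/
noncomputable def fracR {σ : Type} {c : ℕ} (a : Fin c → MvPolynomial σ ℂ) (w : MvPolynomial σ ℂ) :
    MvPolynomial (Fin c) ℂ →+* Localization.Away w :=
  ((aeval (fun t => algebraMap (MvPolynomial σ ℂ) (Localization.Away w) (a t) *
    IsLocalization.Away.invSelf w) : MvPolynomial (Fin c) ℂ →ₐ[ℂ] Localization.Away w) :
    MvPolynomial (Fin c) ℂ →+* Localization.Away w)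

theorem same_powF (H : StSpan) {σ : Type} {T r l c : ℕ} (α : Fin T → ℕ)
    (f : Fin T → Fin r → MvPolynomial σ ℂ) (h : Fin T → Fin l → MvPolynomial (Fin c) ℂ)
    (a : Fin c → MvPolynomial σ ℂ) (w : MvPolynomial σ ℂ) (hs : ∀ t, Same (f t) (h t) a w) :
    Same (powF α f) (powF α h) a w := by
  unfold Same
  have h1 := H (algebraMap (MvPolynomial σ ℂ) (Localization.Away w)) α f
  have h2 := H (fracR a w) α h
  refine h1.trans (Eq.trans ?_ h2.symm)
  exact Finset.prod_congr rfl fun t _ => congrArg (fun I => I ^ α t) (hs t)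

theorem same_pw (H : StSpan) {σ : Type} {r l c : ℕ} (α : ℕ)
    (f : Fin r → MvPolynomial σ ℂ) (h : Fin l → MvPolynomial (Fin c) ℂ)
    (a : Fin c → MvPolynomial σ ℂ) (w : MvPolynomial σ ℂ) (hs : Same f h a w) :
    Same (pw α f) (pw α h) a w := by
  unfold Same
  have h1 := span_pw H (algebraMap (MvPolynomial σ ℂ) (Localization.Away w)) α f
  have h2 := span_pw H (fracR a w) α h
  exact h1.trans ((congrArg (fun I => I ^ α) hs).trans h2.symm)

/-- the chart of the products of powers -/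
noncomputable def tch {σ : Type} {T : ℕ} (α : Fin T → ℕ) (A : TChart σ T) : Chart σ :=
  ⟨A.c, _, A.a, A.w, A.s, reF (powF α A.h)⟩

theorem tch_fits (H : StSpan) {σ : Type} {T r : ℕ} (α : Fin T → ℕ) (A : TChart σ T)
    (f : Fin T → Fin r → MvPolynomial σ ℂ) (h : A.Fits f) : (tch α A).Fits (reF (powF α f)) :=
  same_reF _ _ _ _ (same_powF H α f A.h A.a A.w h)

/-- the chart of the powers -/
noncomputable def pch {σ : Type} (α : ℕ) (A : Chart σ) : Chart σ :=
  ⟨A.c, _, A.a, A.w, A.s, reF (pw α A.h)⟩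

theorem pch_fits (H : StSpan) {σ : Type} {r : ℕ} (α : ℕ) (A : Chart σ)
    (f : Fin r → MvPolynomial σ ℂ) (h : A.Fits f) : (pch α A).Fits (reF (pw α f)) :=
  same_reF _ _ _ _ (same_pw H α f A.h A.a A.w h)

/-- covers of tuples -/
theorem cv_tuple (H : StSpan) {Γ : ∀ n r : ℕ, (Fin r → MvPolynomial (Fin n) ℂ) → Prop} {n T r : ℕ}
    (α : Fin T → ℕ) (f : Fin T → Fin r → MvPolynomial (Fin n) ℂ) (P : (Fin n → ℂ) → Prop)
    (S : Set (TChart (Fin n) T)) (h0 : S.Finite) (hS : ∀ A ∈ S, A.Fits f)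
    (hT : ∀ A ∈ S, Γ A.c _ (reF (powF α A.h)))
    (hp : ∀ p : Fin n → ℂ, P p → (∃ t, ∀ j, eval p (f t j) = 0) → ∃ A ∈ S, A.Mem p) :
    Cv Γ (reF (powF α f)) P := by
  classical
  refine ⟨(h0.image (tch α)).toFinset, fun B hB => ?_, fun p hP hz => ?_⟩
  · obtain ⟨A, hA, rfl⟩ := (h0.image (tch α)).mem_toFinset.1 hB
    exact ⟨tch_fits H α A f (hS A hA), hT A hA⟩
  · obtain ⟨A, hA, hAp⟩ := hp p hP (powF_zero α f p ((reF_all (powF α f) fun x => eval p x = 0).1 hz))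
    exact ⟨tch α A, (h0.image (tch α)).mem_toFinset.2 ⟨A, hA, rfl⟩, hAp⟩

/-- covers for powers -/
theorem cv_pw (H : StSpan) {Γ Γ' : ∀ n r : ℕ, (Fin r → MvPolynomial (Fin n) ℂ) → Prop} {n r : ℕ}
    (α : ℕ) (f : Fin r → MvPolynomial (Fin n) ℂ) (P : (Fin n → ℂ) → Prop)
    (hΓ : ∀ {n r : ℕ} (f : Fin r → MvPolynomial (Fin n) ℂ), Γ n r f → Γ' n _ (reF (pw α f)))
    (h : Cv Γ f P) : Cv Γ' (reF (pw α f)) P := by
  classical
  obtain ⟨S, hS, hp⟩ := h
  refine ⟨S.image (pch α), fun B hB => ?_, fun p hP hz => ?_⟩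
  · obtain ⟨A, hA, rfl⟩ := Finset.mem_image.1 hB
    exact ⟨pch_fits H α A f (hS A hA).1, hΓ A.h (hS A hA).2⟩
  · obtain ⟨A, hA, hAp⟩ := hp p hP (pw_zero α f p ((reF_all (pw α f) fun x => eval p x = 0).1 hz))
    exact ⟨pch α A, Finset.mem_image_of_mem _ hA, hAp⟩

end charts

section pow

variable {M : Meas ℂ (MK ℂ)} (hL : M.L = ((Lu ℂ : (MK ℂ)ˣ) : MK ℂ))
include hL

omit hL in
theorem neg_not_nat {q : ℤ × ℤ} (h1 : q.1 < 0) (h2 : 0 < q.2) (k : ℕ) :
    ((q.1 : ℂ) / q.2) ≠ k := by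
  intro h
  have h3 : (q.2 : ℂ) ≠ 0 := by exact_mod_cast h2.ne'
  rw [div_eq_iff h3] at h
  have h4 : q.1 = k * q.2 := by exact_mod_cast h
  have h5 : (0 : ℤ) ≤ k * q.2 := mul_nonneg (Int.natCast_nonneg k) h2.le
  omega

theorem pm_pw (H : TSteps) {n r : ℕ} (f : Fin r → MvPolynomial (Fin n) ℂ) (a : ℕ) (ha : 1 ≤ a)
    (h : PM M false f) : PM M false (pw a f) := by
  classical
  have hv : M.L * (((Lu ℂ)⁻¹ : (MK ℂ)ˣ) : MK ℂ) = 1 := by rw [hL, Units.mul_inv]
  obtain ⟨hf, S, hS, hz⟩ := h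
  refine ⟨pw_ne a f hf, S.image fun q => (q.1, (a : ℤ) * q.2), fun q hq => ?_, ?_⟩
  · obtain ⟨q', hq', rfl⟩ := Finset.mem_image.1 hq
    obtain ⟨h1, h2, h3⟩ := hS q' hq'
    refine ⟨h1, mul_pos (by exact_mod_cast ha) h2, ?_⟩
    have h4 := H.powsf f a ha 0 _ (neg_not_nat h1 h2) h3
    have h5 : ((q'.1 : ℂ) / (((a : ℤ) * q'.2 : ℤ) : ℂ)) = (q'.1 : ℂ) / q'.2 / a := by
      push_cast
      rw [div_div, mul_comm]
    simp only
    rw [h5]
    exact h4
  · rw [SW_false] at hz ⊢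
    rw [H.powz M _ hv f constr_pt0 a ha]
    exact H.dil (Lu ℂ) S (fun q hq => (hS q hq).2.1) _ hz a ha

theorem gm_pw (H : TSteps) {n r : ℕ} (f : Fin r → MvPolynomial (Fin n) ℂ) (a : ℕ) (ha : 1 ≤ a)
    (h : GM M false f) : GM M false (pw a f) := by
  classical
  have hv : M.L * (((Lu ℂ)⁻¹ : (MK ℂ)ˣ) : MK ℂ) = 1 := by rw [hL, Units.mul_inv]
  obtain ⟨hf, S, hS, hz⟩ := h
  refine ⟨pw_ne a f hf, S.image fun q => (q.1, (a : ℤ) * q.2), fun q hq => ?_, ?_⟩
  · obtain ⟨q', hq', rfl⟩ := Finset.mem_image.1 hq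
    obtain ⟨h1, h2, p, h3⟩ := hS q' hq'
    refine ⟨h1, mul_pos (by exact_mod_cast ha) h2, p, ?_⟩
    have h4 := H.powsf f a ha p _ (neg_not_nat h1 h2) h3
    have h5 : ((q'.1 : ℂ) / (((a : ℤ) * q'.2 : ℤ) : ℂ)) = (q'.1 : ℂ) / q'.2 / a := by
      push_cast
      rw [div_div, mul_comm]
    simp only
    rw [h5]
    exact h4
  · rw [SW_false] at hz ⊢
    rw [H.powz M _ hv f Constr.univ a ha]
    exact H.dil (Lu ℂ) S (fun q hq => (hS q hq).2.1) _ hz a ha

theorem mot_pw (H : TSteps) (k : Kd) {n r : ℕ} (f : Fin r → MvPolynomial (Fin n) ℂ) (a : ℕ)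
    (ha : 1 ≤ a) (h : Mot M k false n r f) : MotJ M k (pw a f) := by
  classical
  have hs : ∀ {n r : ℕ} (f : Fin r → MvPolynomial (Fin n) ℂ),
      Ideal.span (Set.range (reF (pw a f))) = Ideal.span (Set.range (pw a f)) := fun f => by
    rw [reF_range']
  cases k with
  | germ => exact pm_span H.trans _ _ (hs f) (pm_pw hL H f a ha h)
  | cov =>
    exact ⟨(reF_ex _).2 (pw_ne a f h.1), cv_pw H.span a f _
      (fun f hf => pm_span H.trans _ _ (hs f) (pm_pw hL H f a ha hf)) h.2⟩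
  | glob => exact gm_span H.trans _ _ (hs f) (gm_pw hL H f a ha h)

end pow

end Pool.Agent.Q57.QT
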