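import Pool.Agent.Q57.QT.Lin
import Pool.Agent.TH192.MU.TwZ

set_option autoImplicit false
set_option linter.unusedSectionVars false
set_option linter.unusedVariables false

/-! # The twisted topological zeta functions -/

namespace Pool.Agent.Q57.QT

open MvPolynomial Pool.Agent.W428.MOT Pool.Agent.TH192.MT Pool.Agent.TH192.DT Pool.Agent.Q49.CO
open Pool.Agent.TH192.MU
open Pool.Agent.Y229 Pool.Agent.Q57.MC Pool.Agent.Q57.MD Pool.Agent.Q57.QM
open Pool.Agent.H628R4.TP (IsBFunction)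

section gen

variable {R : Type} [CommRing R] [IsDomain R] (E : MK ℂ →+* R) (ε : R →+* ℂ)

theorem isTop_unique {Zm : PowerSeries (MK ℂ)} {Z Z' : RatFunc ℂ} (h : IsTopZeta E ε Zm Z)
    (h' : IsTopZeta E ε Zm Z') : Z = Z' := by
  have h1 : Z.num * Z'.denom = Z'.num * Z.denom := by
    have h2 : ∀ s : ℕ, (Z.num * Z'.denom - Z'.num * Z.denom).eval ((s + 1 : ℕ) : ℂ) = 0 := by
      intro s
      obtain ⟨c, hc, hc'⟩ := h (s + 1) (Nat.succ_pos s)
      obtain ⟨d, hd, hd'⟩ := h' (s + 1) (Nat.succ_pos s)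
      have h3 := specAt_unique hc hd
      subst h3
      rw [Polynomial.eval_sub, Polynomial.eval_mul, Polynomial.eval_mul, hc', hd']
      ring
    refine sub_eq_zero.1 (Polynomial.eq_zero_of_infinite_isRoot _ ?_)
    refine Set.Infinite.mono ?_ (Set.infinite_range_of_injective
      (f := fun s : ℕ => ((s + 1 : ℕ) : ℂ)) fun a b hab => ?_)
    · rintro _ ⟨s, rfl⟩
      exact h2 s
    · have h4 : ((a + 1 : ℕ) : ℂ) = ((b + 1 : ℕ) : ℂ) := hab
      have h5 : a + 1 = b + 1 := by exact_mod_cast h4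
      omega
  have h6 := RatFunc.num_div_denom Z
  have h7 := RatFunc.num_div_denom Z'
  rw [← h6, ← h7, div_eq_div_iff (RatFunc.algebraMap_ne_zero Z.denom_ne_zero)
    (RatFunc.algebraMap_ne_zero Z'.denom_ne_zero), ← map_mul, ← map_mul, h1]

/-- the covers of the powers of a homogeneous polynomial -/
theorem zetaC_pow {σ : Type} [Fintype σ] (G : MvPolynomial σ ℂ) (wt : σ → ℤ) (h : Hom1 G wt)
    {g k : ℕ} (hg : 0 < g) (hk : 0 < k) :
    zetaC (G ^ g) k = PowerSeries.C (Nat.gcd k g : MK ℂ) * zetaC (G ^ g) 1 := by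
  obtain ⟨M, hL, hM⟩ := exists_meas ℂ
  have h1 := fun d => chi_JetC M h hg hk d
  ext d
  rw [PowerSeries.coeff_C_mul]
  unfold zetaC
  rw [PowerSeries.coeff_mk, PowerSeries.coeff_mk]
  split_ifs with h0
  · rw [mul_zero]
  · rw [← hM, ← hM, h1 d, mul_assoc]

/-- **The twisted topological zeta functions of the powers of a homogeneous polynomial.** -/
theorem twisted_eq {σ : Type} [Fintype σ] (G : MvPolynomial σ ℂ) (wt : σ → ℤ) (h : Hom1 G wt)
    {g : ℕ} (hg : 0 < g) (e : ℕ) (he : 0 < e) (Z : RatFunc ℂ)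
    (hZ : IsTwistedTop E ε (G ^ g) e Z) :
    (e ∣ g → IsTopZeta E ε (zetaC (G ^ g) 1) Z) ∧ (¬ e ∣ g → Z = 0) := by
  obtain ⟨Y, hY, hsum⟩ := hZ
  have hY1 : IsTopZeta E ε (zetaC (G ^ g) 1) (Y 1) := hY 1 (one_dvd _)
  have hYk : ∀ k, k ∣ e → Y k = (Nat.gcd k g : RatFunc ℂ) * Y 1 := by
    intro k hk
    have hk0 : 0 < k := Nat.pos_of_dvd_of_pos hk he
    have h1 := hY k hk
    rw [zetaC_pow G wt h hg hk0] at h1
    exact isTop_unique E ε h1 (isTop_mul hY1 _)
  have h2 : ∑ q ∈ e.divisorsAntidiagonal,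
      ((ArithmeticFunction.moebius q.1 : ℤ) : RatFunc ℂ) * Y q.2 =
      (if e ∣ g then (Nat.totient e : RatFunc ℂ) else 0) * Y 1 := by
    have h2 := congrArg (fun n : ℤ => (n : RatFunc ℂ)) (mob_gcd g e he)
    simp only [Int.cast_sum, Int.cast_mul, Int.cast_natCast, Int.cast_ite, Int.cast_zero] at h2
    rw [← h2, Finset.sum_mul]
    refine Finset.sum_congr rfl fun q hq => ?_
    have h3 : q.2 ∣ e := Dvd.intro_left q.1 (Nat.mem_divisorsAntidiagonal.1 hq).1
    rw [hYk _ h3, mul_assoc]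
  have hφ : (Nat.totient e : RatFunc ℂ) ≠ 0 := by
    have h2 : 0 < Nat.totient e := Nat.totient_pos.2 he
    exact_mod_cast h2.ne'
  rw [h2] at hsum
  constructor
  · intro h3
    rw [if_pos h3] at hsum
    rw [mul_left_cancel₀ hφ hsum]
    exact hY1
  · intro h3
    rw [if_neg h3, zero_mul] at hsum
    exact (mul_eq_zero.1 hsum).resolve_left hφ

variable (hε : ε (E ((Lu ℂ : (MK ℂ)ˣ) : MK ℂ)) = 1) (hE : E ((Lu ℂ : (MK ℂ)ˣ) : MK ℂ) ≠ 1)

include hε hE

theorem twisted_roots {σ : Type} [Fintype σ] [DecidableEq σ] (f : MvPolynomial σ ℂ)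
    (S : Finset (ℤ × ℤ)) (hS : GlobMC (fun _ : Fin 1 => f) S) (Z : RatFunc ℂ)
    (hZ : IsTopZeta E ε (zetaC f 1) Z) (s₀ : ℂ) (hs : Z.denom.eval s₀ = 0) (b : Polynomial ℂ)
    (hb : IsBFunction f b) : b.eval s₀ = 0 := by
  obtain ⟨h1, h2⟩ := hS
  rw [zetaId_one] at h2
  have h3 : zetaC f 1 ∈ ratRing ℂ (S : Set (ℤ × ℤ)) := by
    rw [zetaC_one]
    exact Subalgebra.sub_mem _ h2 (by rw [ratRing_eq]; exact rat_C _ _)
  obtain ⟨q, hq, rfl⟩ := top_poles E ε hε hE _ (fun q hq => ⟨(h1 q hq).1, (h1 q hq).2.1⟩) _ h3 Z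
    hZ s₀ hs
  obtain ⟨p, hp⟩ := (h1 q hq).2.2
  exact sf_forced hp b (locEq1_of_eq f b hb)

end gen

section hyp

variable {n T r : ℕ} (f : Fin T → Fin r → MvPolynomial (Fin n) ℂ)

/-- the weights -/
def wts (n r : ℕ) {T : ℕ} (c : Fin T → ℤ) (i : Fin (n + T * r)) : ℤ :=
  Fin.addCases (motive := fun _ => ℤ) (fun _ => 0) (fun q => c (finProdFinEquiv.symm q).1) i

theorem wts_left (c : Fin T → ℤ) (i : Fin n) : wts n r c (Fin.castAdd (T * r) i) = 0 :=
  Fin.addCases_left i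

theorem wts_right (c : Fin T → ℤ) (t : Fin T) (j : Fin r) :
    wts n r c (Fin.natAdd n (finProdFinEquiv (t, j))) = c t := by
  unfold wts
  rw [Fin.addCases_right, Equiv.symm_apply_apply]

theorem hom1_hypT (b : Fin T → ℕ) (c : Fin T → ℤ) (hc : ∑ t, (b t : ℤ) * c t = 1) :
    Hom1 (∏ t, hypT f t ^ b t) (wts n r c) := by
  intro μ hμ x
  have key : ∀ y : Fin (n + T * r) → PowerSeries (AlgebraicClosure ℂ),
      aeval y (∏ t, hypT f t ^ b t) = ∏ t, (∑ j, y (Fin.natAdd n (finProdFinEquiv (t, j))) *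
        aeval (fun i => y (Fin.castAdd (T * r) i)) (f t j)) ^ b t := by
    intro y
    rw [map_prod]
    refine Finset.prod_congr rfl fun t _ => ?_
    unfold hypT
    rw [map_pow, map_sum]
    congr 1
    refine Finset.sum_congr rfl fun j _ => ?_
    rw [map_mul, aeval_X, aeval_rename]
    rfl
  rw [key, key]
  have h1 : ∀ t, (∑ j, (PowerSeries.C (μ ^ wts n r c (Fin.natAdd n (finProdFinEquiv (t, j)))) *
        x (Fin.natAdd n (finProdFinEquiv (t, j)))) *
        aeval (fun i => PowerSeries.C (μ ^ wts n r c (Fin.castAdd (T * r) i)) *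
          x (Fin.castAdd (T * r) i)) (f t j)) =
      PowerSeries.C (μ ^ c t) * ∑ j, x (Fin.natAdd n (finProdFinEquiv (t, j))) *
        aeval (fun i => x (Fin.castAdd (T * r) i)) (f t j) := by
    intro t
    rw [Finset.mul_sum]
    refine Finset.sum_congr rfl fun j _ => ?_
    simp only [wts_left, wts_right, zpow_zero, map_one, one_mul]
    ring
  have h2 : (∏ t, (PowerSeries.C (μ ^ c t) : PowerSeries (AlgebraicClosure ℂ)) ^ b t) =
      PowerSeries.C μ := by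
    have h3 : ∀ t, (PowerSeries.C (μ ^ c t) : PowerSeries (AlgebraicClosure ℂ)) ^ b t =
        PowerSeries.C (μ ^ ((b t : ℤ) * c t)) := by
      intro t
      rw [← map_pow]
      congr 1
      rw [← zpow_natCast, ← zpow_mul, mul_comm]
    rw [Finset.prod_congr rfl fun t _ => h3 t, ← map_prod]
    congr 1
    have h4 : ∀ s : Finset (Fin T), ∏ t ∈ s, μ ^ ((b t : ℤ) * c t) =
        μ ^ ∑ t ∈ s, (b t : ℤ) * c t := by
      intro s
      classical
      induction s using Finset.induction_on with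
      | empty => simp
      | insert t s ht ih => rw [Finset.prod_insert ht, Finset.sum_insert ht, ih, zpow_add₀ hμ]
    rw [h4, hc, zpow_one]
  calc _ = ∏ t, (PowerSeries.C (μ ^ c t) * ∑ j, x (Fin.natAdd n (finProdFinEquiv (t, j))) *
        aeval (fun i => x (Fin.castAdd (T * r) i)) (f t j)) ^ b t :=
        Finset.prod_congr rfl fun t _ => by rw [← h1 t]
    _ = _ := by
      rw [← h2, ← Finset.prod_mul_distrib]
      exact Finset.prod_congr rfl fun t _ => by rw [mul_pow]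

/-- the product as a power of a homogeneous polynomial -/
theorem exists_root (hT : 0 < T) (a : Fin T → ℕ) (ha : ∀ t, 1 ≤ a t) :
    ∃ (g : ℕ) (G : MvPolynomial (Fin (n + T * r)) ℂ) (wt : Fin (n + T * r) → ℤ), 0 < g ∧
      Hom1 G wt ∧ (∏ t, hypT f t ^ a t) = G ^ g ∧ ∀ e : ℕ, e ∣ g ↔ ∀ t, e ∣ a t := by
  set g := Finset.univ.gcd a with hg
  have hgd : ∀ t, g ∣ a t := fun t => Finset.gcd_dvd (Finset.mem_univ t)
  have hgpos : 0 < g := by
    refine Nat.pos_of_ne_zero fun h0 => ?_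
    have h1 := hgd ⟨0, hT⟩
    rw [h0, zero_dvd_iff] at h1
    have h2 := ha ⟨0, hT⟩
    omega
  choose b hb using hgd
  have hb' : a = fun t => g * b t := funext hb
  have hgb : Finset.univ.gcd b = 1 := by
    have h1 : g = g * Finset.univ.gcd b := by
      conv_lhs => rw [hg, hb']
      rw [Finset.gcd_mul_left]
      simp
    exact (Nat.eq_of_mul_eq_mul_left hgpos (h1.symm.trans (mul_one g).symm))
  obtain ⟨c, hc⟩ := exists_comb Finset.univ b
  rw [hgb, Nat.cast_one] at hc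
  refine ⟨g, ∏ t, hypT f t ^ b t, _, hgpos, hom1_hypT f b c hc, ?_, fun e =>
    ⟨fun h t => h.trans (Finset.gcd_dvd (Finset.mem_univ t)), fun h => Finset.dvd_gcd fun t _ => h t⟩⟩
  rw [← Finset.prod_pow]
  refine Finset.prod_congr rfl fun t _ => ?_
  rw [hb t, mul_comm g, pow_mul]

variable {R : Type} [CommRing R] [IsDomain R] (E : MK ℂ →+* R) (ε : R →+* ℂ)
  (hε : ε (E ((Lu ℂ : (MK ℂ)ˣ) : MK ℂ)) = 1) (hE : E ((Lu ℂ : (MK ℂ)ˣ) : MK ℂ) ≠ 1)

include hε hE

/-- **The twisted topological zeta functions of the products of powers of forms over ideals.** -/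
theorem twisted_hypT (H : TSteps) (hf : TQ .glob n T r f) (hT : 0 < T)
    (a : Fin T → ℕ) (ha : ∀ t, 1 ≤ a t) (e : ℕ) (he : 0 < e) (Z : RatFunc ℂ)
    (hZ : IsTwistedTop E ε (∏ t, hypT f t ^ a t) e Z) :
    ((∀ t, e ∣ a t) → IsTopZeta E ε (zetaC (∏ t, hypT f t ^ a t) 1) Z) ∧
    ((∃ t, ¬ e ∣ a t) → Z = 0) ∧
    ∀ s₀ : ℂ, Z.denom.eval s₀ = 0 → (∀ t, e ∣ a t) ∧
      ∀ b : Polynomial ℂ, IsBFunction (∏ t, hypT f t ^ a t) b → b.eval s₀ = 0 := by
  classical
  obtain ⟨g, G, wt, hg, hG, hpow, hdvd⟩ := exists_root f hT a ha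
  rw [hpow] at hZ
  obtain ⟨h1, h2⟩ := twisted_eq E ε G wt hG hg e he Z hZ
  rw [← hpow] at h1
  refine ⟨fun h => h1 ((hdvd e).2 h), fun ⟨t, ht⟩ => h2 fun h => ht ((hdvd e).1 h t),
    fun s₀ hs => ?_⟩
  by_cases he' : e ∣ g
  · refine ⟨(hdvd e).1 he', fun b hb => ?_⟩
    obtain ⟨-, S, hS⟩ := tq_glob H (F := hypT f) (TQ.hyp (fun h => by cases h) f hf) a ha
    exact twisted_roots E ε hε hE _ S hS Z (h1 he') s₀ hs b hb
  · rw [h2 he', RatFunc.denom_zero, Polynomial.eval_one] at hs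
    exact (one_ne_zero hs).elim

end hyp

end Pool.Agent.Q57.QT
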