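import Pool.Agent.Q57.QT.Geo
import Pool.Agent.Q57.QT.Op

set_option autoImplicit false
set_option linter.unusedSectionVars false
set_option linter.unusedVariables false

/-! # One translate of the hyperplane for the whole Bernstein-Sato ideal -/

namespace Pool.Agent.Q57.QT

open MvPolynomial Pool.Agent.H628R4.TP

/-- The Bernstein-Sato ideal is a subspace. -/
noncomputable def subBF {σ : Type} {T : ℕ} (F : Fin T → MvPolynomial σ ℂ) :
    Submodule ℂ (MvPolynomial (Fin T) ℂ) where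
  carrier := {b | InBF F b}
  zero_mem' := ⟨0, fun s => by simp⟩
  add_mem' := by
    rintro b b' ⟨D, hD⟩ ⟨D', hD'⟩
    refine ⟨D + D', fun s => ?_⟩
    classical
    rw [map_add, C_add, add_mul, hD s, hD' s, Finsupp.sum_add_index']
    · intro β
      simp
    · intro β Q Q'
      rw [Subalgebra.coe_add, LinearMap.add_apply, smul_add]
  smul_mem' := by
    rintro c b ⟨D, hD⟩
    refine ⟨c • D, fun s => ?_⟩
    classical
    rw [smul_eval, C_mul, mul_assoc, hD s, Finsupp.sum_smul_index']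
    · rw [← smul_eq_C_mul, Finsupp.smul_sum]
      refine Finsupp.sum_congr fun β _ => ?_
      rw [smul_comm]
      rfl
    · intro β
      simp

/-- countably many polynomials have a common nonzero -/
theorem exists_nonroot (q : ℕ → Polynomial ℂ) (hq : ∀ i, q i ≠ 0) :
    ∃ z : ℂ, ∀ i, (q i).eval z ≠ 0 := by
  by_contra hcon
  push Not at hcon
  have h1 : (⋃ i, {z : ℂ | (q i).eval z = 0}).Countable := by
    refine Set.countable_iUnion fun i => Set.Finite.countable ?_
    refine ((q i).roots.toFinset.finite_toSet).subset fun z hz => ?_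
    rw [Finset.mem_coe, Multiset.mem_toFinset, Polynomial.mem_roots (hq i)]
    exact hz
  have h2 : (⋃ i, {z : ℂ | (q i).eval z = 0}) = Set.univ := by
    rw [Set.eq_univ_iff_forall]
    intro z
    obtain ⟨i, hi⟩ := hcon z
    exact Set.mem_iUnion.2 ⟨i, hi⟩
  rw [h2] at h1
  exact not_countable_complex h1

section uni

variable {T : ℕ} (ν : ℕ) (N : Fin T → ℕ) (t₀ : Fin T) (hN : 0 < N t₀)

include hN

/-- **One translate for all elements of a subspace.** -/
theorem uniform_shift (V : Submodule ℂ (MvPolynomial (Fin T) ℂ))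
    (h : ∀ b ∈ V, ∃ i : ℕ, ∀ z : Fin T → ℂ, (ν : ℂ) + ∑ t, (N t : ℂ) * z t = 0 →
      eval (fun t => z t + i) b = 0) :
    ∃ i : ℕ, ∀ b ∈ V, ∀ z : Fin T → ℂ, (ν : ℂ) + ∑ t, (N t : ℂ) * z t = 0 →
      eval (fun t => z t + i) b = 0 := by
  classical
  by_contra hcon
  push Not at hcon
  choose b hbV z hz hbz using hcon
  set B := bet ν N t₀ (b 0) with hBdef
  have hB0 : B ≠ 0 := by
    intro h0
    have h1 := eval_bet ν N t₀ (b 0) (z 0) ((0 : ℕ) : ℂ)
    rw [rho_eq ν N t₀ hN (z 0) (hz 0), ← hBdef, h0, Polynomial.map_zero, Polynomial.eval_zero] at h1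
    exact hbz 0 h1.symm
  have hfin : {i : ℕ | B.eval (C (i : ℂ)) = 0}.Finite := by
    refine Set.Finite.preimage (f := fun i : ℕ => (C (i : ℂ) : MvPolynomial (Fin T) ℂ))
      (fun a _ b _ hab => ?_) (s := {x | B.eval x = 0}) ?_
    · have h1 : (a : ℂ) = b := C_injective _ _ hab
      exact_mod_cast h1
    · refine (B.roots.toFinset.finite_toSet).subset fun x hx => ?_
      rw [Finset.mem_coe, Multiset.mem_toFinset, Polynomial.mem_roots hB0]
      exact hx
  set I := hfin.toFinset with hI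
  have hImem : ∀ i, i ∈ I ↔ B.eval (C (i : ℂ)) = 0 := fun i => by
    rw [hI, Set.Finite.mem_toFinset]
    exact Iff.rfl
  have hval : ∀ (i : ℕ) (y : Fin T → ℂ), eval y (B.eval (C (i : ℂ))) =
      eval (fun t => rho ν N t₀ y t + i) (b 0) := by
    intro i y
    rw [← eval_bet, Polynomial.eval_map, Polynomial.eval, Polynomial.hom_eval₂, RingHom.comp_id,
      eval_C]
  set Q : (Fin T → ℂ) → Polynomial ℂ := fun y =>
    Polynomial.C (eval y (b 0)) + ∑ j ∈ I, Polynomial.C (eval y (b j)) * Polynomial.X ^ (j + 1)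
    with hQ
  have hQ0 : ∀ y, (Q y).coeff 0 = eval y (b 0) := by
    intro y
    rw [hQ]
    simp only
    rw [Polynomial.coeff_add, Polynomial.coeff_C_zero, Polynomial.finsetSum_coeff]
    rw [Finset.sum_eq_zero, add_zero]
    intro j _
    rw [Polynomial.coeff_C_mul, Polynomial.coeff_X_pow, if_neg (by omega), mul_zero]
  have hQ1 : ∀ y, ∀ i ∈ I, (Q y).coeff (i + 1) = eval y (b i) := by
    intro y i hi
    rw [hQ]
    simp only
    rw [Polynomial.coeff_add, Polynomial.coeff_C_succ, zero_add, Polynomial.finsetSum_coeff]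
    rw [Finset.sum_eq_single i]
    · rw [Polynomial.coeff_C_mul, Polynomial.coeff_X_pow, if_pos rfl, mul_one]
    · intro j _ hj
      rw [Polynomial.coeff_C_mul, Polynomial.coeff_X_pow, if_neg (by omega), mul_zero]
    · intro hi'
      exact absurd hi hi'
  have hy : ∀ i : ℕ, ∃ y : Fin T → ℂ, (ν : ℂ) + ∑ t, (N t : ℂ) * y t = 0 ∧
      Q (fun t => y t + i) ≠ 0 := by
    intro i
    by_cases hi : i ∈ I
    · refine ⟨z i, hz i, fun h0 => hbz i ?_⟩
      rw [← hQ1 _ i hi, h0, Polynomial.coeff_zero]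
    · have h1 : B.eval (C (i : ℂ)) ≠ 0 := fun h0 => hi ((hImem i).2 h0)
      obtain ⟨x, hx⟩ : ∃ x, eval x (B.eval (C (i : ℂ))) ≠ 0 := by
        by_contra hc
        push Not at hc
        exact h1 (MvPolynomial.funext fun x => by rw [hc, map_zero])
      refine ⟨rho ν N t₀ x, rho_mem ν N t₀ hN x, fun h0 => hx ?_⟩
      rw [hval, ← hQ0, h0, Polynomial.coeff_zero]
  choose y hy1 hy2 using hy
  obtain ⟨l, hl⟩ := exists_nonroot (fun i => Q fun t => y i t + i) hy2
  obtain ⟨i, hi⟩ := h (b 0 + ∑ j ∈ I, (l ^ (j + 1)) • b j)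
    (V.add_mem (hbV 0) (V.sum_mem fun j _ => V.smul_mem _ (hbV j)))
  apply hl i
  have h2 := hi (y i) (hy1 i)
  rw [map_add, map_sum] at h2
  simp only [smul_eval] at h2
  rw [← h2, hQ]
  simp only
  rw [Polynomial.eval_add, Polynomial.eval_C, Polynomial.eval_finsetSum]
  congr 1
  refine Finset.sum_congr rfl fun j _ => ?_
  rw [Polynomial.eval_mul, Polynomial.eval_C, Polynomial.eval_pow, Polynomial.eval_X, mul_comm]

end uni

/-- **The translate of the hyperplane in the zero locus of the Bernstein-Sato ideal.** Let `g` be a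
polynomial which is not zero on the hyperplane `H : ν + ∑ N_t z_t = 0`, and suppose that for all
`a ≥ 1` and `s₀` with `s₀ a ∈ H` and `g(s₀ a) ≠ 0` the number `s₀` is a root of all `b`-functions of
`∏ F_t ^ (a_t)`. Then some translate of `H` is in the zero locus of the Bernstein-Sato ideal. -/
theorem exists_shift {σ : Type} [Finite σ] {T : ℕ} (F : Fin T → MvPolynomial σ ℂ) (ν : ℕ)
    (hν : 0 < ν) (N : Fin T → ℕ) (hN : ∃ t, 0 < N t) (g : MvPolynomial (Fin T) ℂ)
    (hg : ∃ z : Fin T → ℂ, (ν : ℂ) + ∑ t, (N t : ℂ) * z t = 0 ∧ eval z g ≠ 0)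
    (h : ∀ (a : Fin T → ℕ) (s₀ : ℂ), (∀ t, 1 ≤ a t) →
      (ν : ℂ) + ∑ t, (N t : ℂ) * (s₀ * a t) = 0 → eval (fun t => s₀ * a t) g ≠ 0 →
      ∀ b : Polynomial ℂ, IsBFunction (∏ t, F t ^ a t) b → b.eval s₀ = 0) :
    ∃ i : ℕ, ∀ b, InBF F b → ∀ z : Fin T → ℂ, (ν : ℂ) + ∑ t, (N t : ℂ) * z t = 0 →
      eval (fun t => z t + i) b = 0 := by
  classical
  obtain ⟨t₀, ht₀⟩ := hN
  refine uniform_shift ν N t₀ ht₀ (subBF F) fun b hb => ?_
  by_contra hcon
  push Not at hcon
  obtain ⟨a, s₀, ha, hH, hgs, hbs⟩ := exists_line ν hν N t₀ ht₀ g b hg hcon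
  have h1 := line_b F a (b := b) hb (∑ t, a t) fun t =>
    Finset.single_le_sum (f := a) (fun _ _ => Nat.zero_le _) (Finset.mem_univ t)
  have h2 := h a s₀ ha hH hgs _ h1
  rw [Polynomial.eval_prod, Finset.prod_eq_zero_iff] at h2
  obtain ⟨i, _, hi⟩ := h2
  apply hbs i
  rw [← hi]
  have h6 : ((Polynomial.evalRingHom s₀).comp ((aeval fun t => Polynomial.C (a t : ℂ) *
      Polynomial.X + Polynomial.C (i : ℂ) : MvPolynomial (Fin T) ℂ →ₐ[ℂ] Polynomial ℂ) :
        MvPolynomial (Fin T) ℂ →+* Polynomial ℂ)) =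
      (eval fun t => s₀ * a t + i) := by
    refine MvPolynomial.ringHom_ext (fun r => ?_) fun t => ?_
    · simp
    · simp
      ring
  exact (congrArg (fun g : MvPolynomial (Fin T) ℂ →+* ℂ => g b) h6).symm

end Pool.Agent.Q57.QT
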